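import Mathlib

/-! Solutions of `∑ x_i ^ k = 0` modulo `W`. -/

open Finset

namespace Pool.Agent.TH854.KS

/-- the number of solutions of `x_1^k + ... + x_d^k = 0` in `ℤ/W` -/
noncomputable def M (W k d : ℕ) : ℕ := Nat.card {x : Fin d → ZMod W // ∑ i, x i ^ k = 0}

/-- Chinese remainder theorem for solutions -/
def crtEquiv {m n : ℕ} (h : m.Coprime n) (k d : ℕ) :
    {x : Fin d → ZMod (m * n) // ∑ i, x i ^ k = 0} ≃
      {x : Fin d → ZMod m // ∑ i, x i ^ k = 0} × {x : Fin d → ZMod n // ∑ i, x i ^ k = 0} where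
  toFun x := (⟨fun i => (ZMod.chineseRemainder h (x.1 i)).1, by
      have := congrArg (fun y => (ZMod.chineseRemainder h y).1) x.2
      simpa [Prod.fst_sum] using this⟩,
    ⟨fun i => (ZMod.chineseRemainder h (x.1 i)).2, by
      have := congrArg (fun y => (ZMod.chineseRemainder h y).2) x.2
      simpa [Prod.snd_sum] using this⟩)
  invFun y := ⟨fun i => (ZMod.chineseRemainder h).symm (y.1.1 i, y.2.1 i), by
      apply (ZMod.chineseRemainder h).injective
      rw [map_sum, map_zero]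
      apply Prod.ext
      · rw [Prod.fst_sum]
        simpa using y.1.2
      · rw [Prod.snd_sum]
        simpa using y.2.2⟩
  left_inv x := by
    apply Subtype.ext
    funext i
    simp
  right_inv y := by
    apply Prod.ext
    · apply Subtype.ext
      funext i
      simp
    · apply Subtype.ext
      funext i
      simp

lemma M_mul {m n : ℕ} (h : m.Coprime n) (k d : ℕ) : M (m * n) k d = M m k d * M n k d := by
  unfold M
  rw [Nat.card_congr (crtEquiv h k d), Nat.card_prod]

lemma M_one (k d : ℕ) : M 1 k d = 1 := by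
  unfold M
  rw [Nat.card_eq_one_iff_unique]
  refine ⟨⟨fun a b => Subtype.ext (Subsingleton.elim _ _)⟩, ⟨⟨fun _ => 0, Subsingleton.elim _ _⟩⟩⟩

lemma M_prod (P : Finset ℕ) (hP : ∀ p ∈ P, p.Prime) (e k d : ℕ) :
    M (∏ p ∈ P, p ^ e) k d = ∏ p ∈ P, M (p ^ e) k d := by
  classical
  induction P using Finset.induction_on with
  | empty => simp [M_one]
  | insert p P hp ih =>
    rw [prod_insert hp, prod_insert hp, M_mul, ih (fun q hq => hP q (mem_insert_of_mem hq))]
    apply Nat.Coprime.prod_right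
    intro q hq
    apply Nat.Coprime.pow
    rw [Nat.coprime_primes (hP p (mem_insert_self _ _)) (hP q (mem_insert_of_mem hq))]
    rintro rfl
    exact hp hq

/-- roots modulo prime powers -/
lemma hensel {p K k : ℕ} (hp : p.Prime) (hK : 1 ≤ K) (hk : ¬ p ∣ k) (a t : ZMod (p ^ K))
    (ha : IsUnit a) (ht : (p : ZMod (p ^ K)) ∣ t - a ^ k) :
    ∃ r : ZMod (p ^ K), r ^ k = t ∧ (p : ZMod (p ^ K)) ∣ r - a := by
  obtain ⟨b, hb⟩ := ha.exists_right_inv
  set u : ZMod (p ^ K) := t * b ^ k with hu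
  have hab : a ^ k * b ^ k = 1 := by rw [← mul_pow, hb, one_pow]
  have hu1 : (p : ZMod (p ^ K)) ∣ u - 1 := by
    have : u - 1 = (t - a ^ k) * b ^ k := by rw [hu, sub_mul, hab]
    rw [this]
    exact Dvd.dvd.mul_right ht _
  have hN : u ^ (p ^ (K - 1)) = 1 := by
    have h1 := dvd_sub_pow_of_dvd_sub hu1 (K - 1)
    rw [Nat.sub_add_cancel hK, one_pow] at h1
    have h2 : ((p : ZMod (p ^ K)) ^ K) = 0 := by
      have := ZMod.natCast_self (p ^ K)
      push_cast at this
      exact this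
    rw [h2, zero_dvd_iff, sub_eq_zero] at h1
    exact h1
  have hcop : Nat.Coprime k (p ^ (K - 1)) := by
    apply Nat.Coprime.pow_right
    exact ((Nat.Prime.coprime_iff_not_dvd hp).mpr hk).symm
  obtain ⟨e, he⟩ : ∃ e : ℕ, ∃ s : ℕ, k * e = 1 + p ^ (K - 1) * s := by
    rcases Nat.eq_or_lt_of_le (Nat.one_le_iff_ne_zero.mpr (pow_ne_zero (K - 1) hp.ne_zero)) with h1 | h1
    · have hk0 : 0 < k := by
        rcases Nat.eq_zero_or_pos k with h | h
        · exact absurd (h ▸ dvd_zero p) hk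
        · exact h
      refine ⟨1, k - 1, ?_⟩
      rw [← h1]; omega
    · obtain ⟨e, he⟩ := Nat.exists_mul_mod_eq_one_of_coprime hcop h1
      refine ⟨e, (k * e) / p ^ (K - 1), ?_⟩
      have := Nat.mod_add_div (k * e) (p ^ (K - 1))
      rw [he.2] at this
      exact this.symm
  obtain ⟨s, hs⟩ := he
  refine ⟨a * u ^ e, ?_, ?_⟩
  · rw [mul_pow, ← pow_mul, mul_comm e k, hs, pow_add, pow_one, pow_mul, hN, one_pow, mul_one, hu]
    calc a ^ k * (t * b ^ k) = t * (a ^ k * b ^ k) := by ring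
      _ = t := by rw [hab, mul_one]
  · have : a * u ^ e - a = a * (u ^ e - 1 ^ e) := by rw [one_pow]; ring
    rw [this]
    exact Dvd.dvd.mul_left (dvd_trans hu1 (sub_dvd_pow_sub_pow u 1 e)) _

end Pool.Agent.TH854.KS
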