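import Mathlib
import Pool.Agent.TH854.KS.K1

/-! Lower bound for the number of solutions modulo `p ^ k`. -/

open Finset

namespace Pool.Agent.TH854.KS

lemma castHom_val {p K : ℕ} [NeZero (p ^ K)] (h : p ∣ p ^ K) (x : ZMod (p ^ K)) :
    ZMod.castHom h (ZMod p) x = (x.val : ZMod p) := by
  conv_lhs => rw [← ZMod.natCast_zmod_val x]
  rw [map_natCast]

lemma dvd_of_castHom {p K : ℕ} [NeZero (p ^ K)] (h : p ∣ p ^ K) (x : ZMod (p ^ K))
    (hx : ZMod.castHom h (ZMod p) x = 0) : (p : ZMod (p ^ K)) ∣ x := by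
  rw [castHom_val h, ZMod.natCast_eq_zero_iff] at hx
  obtain ⟨c, hc⟩ := hx
  refine ⟨(c : ZMod (p ^ K)), ?_⟩
  rw [← ZMod.natCast_zmod_val x, hc]
  push_cast
  rfl

lemma castHom_of_dvd {p K : ℕ} (h : p ∣ p ^ K) (x : ZMod (p ^ K))
    (hx : (p : ZMod (p ^ K)) ∣ x) : ZMod.castHom h (ZMod p) x = 0 := by
  obtain ⟨c, rfl⟩ := hx
  rw [map_mul, map_natCast, ZMod.natCast_self, zero_mul]

lemma cast_inj_of_lt {n a b : ℕ} (ha : a < n) (hb : b < n) (h : (a : ZMod n) = b) : a = b := by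
  rw [ZMod.natCast_eq_natCast_iff'] at h
  rwa [Nat.mod_eq_of_lt ha, Nat.mod_eq_of_lt hb] at h

variable {p k d : ℕ}

/-- reduction modulo `p` -/
def red (hk : k ≠ 0) (x : Fin d → ZMod (p ^ k)) : Fin d → ZMod p :=
  fun i => ZMod.castHom (dvd_pow_self p hk) (ZMod p) (x i)

lemma fiber_zero [Fact p.Prime] (hk : k ≠ 0) [NeZero (p ^ k)] :
    (p ^ (k - 1)) ^ d ≤
      ((univ.filter (fun x : Fin d → ZMod (p ^ k) => ∑ i, x i ^ k = 0)).filter
        (fun x => red hk x = 0)).card := by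
  classical
  have hp : p.Prime := Fact.out
  have hpk : p * p ^ (k - 1) = p ^ k := by
    rw [← pow_succ', Nat.sub_add_cancel (Nat.one_le_iff_ne_zero.mpr hk)]
  have hc : (univ : Finset (Fin d → Fin (p ^ (k - 1)))).card = (p ^ (k - 1)) ^ d := by
    rw [card_univ, Fintype.card_fun, Fintype.card_fin, Fintype.card_fin]
  rw [← hc]
  apply card_le_card_of_injOn (fun w i => ((p * (w i : ℕ) : ℕ) : ZMod (p ^ k)))
  · intro w _
    rw [mem_coe, mem_filter, mem_filter]
    refine ⟨⟨mem_univ _, ?_⟩, ?_⟩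
    · apply sum_eq_zero
      intro i _
      rw [← Nat.cast_pow, mul_pow, Nat.cast_mul, ZMod.natCast_self, zero_mul]
    · funext i
      unfold red
      rw [map_natCast, Nat.cast_mul, ZMod.natCast_self, zero_mul]
      rfl
  · intro w _ w' _ h
    funext i
    have h1 := congrFun h i
    have h2 := cast_inj_of_lt (n := p ^ k)
      (by rw [← hpk]; exact Nat.mul_lt_mul_of_pos_left (w i).2 hp.pos)
      (by rw [← hpk]; exact Nat.mul_lt_mul_of_pos_left (w' i).2 hp.pos) h1
    exact Fin.ext (Nat.eq_of_mul_eq_mul_left hp.pos h2)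

lemma fiber_ne [Fact p.Prime] (hk : k ≠ 0) [NeZero (p ^ k)] (hpk : ¬ p ∣ k) (z : Fin d → ZMod p)
    (hz : ∑ i, z i ^ k = 0) (hz0 : z ≠ 0) :
    (p ^ (k - 1)) ^ (d - 1) ≤
      ((univ.filter (fun x : Fin d → ZMod (p ^ k) => ∑ i, x i ^ k = 0)).filter
        (fun x => red hk x = z)).card := by
  classical
  have hp : p.Prime := Fact.out
  have hpk' : p * p ^ (k - 1) = p ^ k := by
    rw [← pow_succ', Nat.sub_add_cancel (Nat.one_le_iff_ne_zero.mpr hk)]
  obtain ⟨i0, hi0⟩ : ∃ i0, z i0 ≠ 0 := by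
    by_contra h
    push Not at h
    exact hz0 (funext h)
  -- the free coordinates
  set y : ({j : Fin d // j ≠ i0} → Fin (p ^ (k - 1))) → Fin d → ZMod (p ^ k) :=
    fun w j => if h : j ≠ i0 then (((z j).val + p * (w ⟨j, h⟩ : ℕ) : ℕ) : ZMod (p ^ k)) else 0 with hy
  have hyne : ∀ w (j : Fin d) (h : j ≠ i0), y w j = (((z j).val + p * (w ⟨j, h⟩ : ℕ) : ℕ) : ZMod (p ^ k)) := by
    intro w j h
    simp only [hy, dif_pos h]
  have hred : ∀ w (j : Fin d), j ≠ i0 → ZMod.castHom (dvd_pow_self p hk) (ZMod p) (y w j) = z j := by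
    intro w j h
    rw [hyne w j h, map_natCast]
    push_cast
    rw [ZMod.natCast_self, zero_mul, add_zero, ZMod.natCast_zmod_val]
  set a : ZMod (p ^ k) := (((z i0).val : ℕ) : ZMod (p ^ k)) with ha
  have hau : IsUnit a := by
    rw [ha, ZMod.isUnit_iff_coprime]
    apply Nat.Coprime.pow_right
    rw [Nat.coprime_comm, Nat.Prime.coprime_iff_not_dvd hp]
    intro hdvd
    apply hi0
    rw [← ZMod.natCast_zmod_val (z i0), ZMod.natCast_eq_zero_iff]
    exact hdvd
  have hra : ZMod.castHom (dvd_pow_self p hk) (ZMod p) a = z i0 := by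
    rw [ha, map_natCast, ZMod.natCast_zmod_val]
  have hex : ∀ w, ∃ r : ZMod (p ^ k), r ^ k = -(∑ j ∈ univ.erase i0, y w j ^ k) ∧
      (p : ZMod (p ^ k)) ∣ r - a := by
    intro w
    apply hensel hp (Nat.one_le_iff_ne_zero.mpr hk) hpk a _ hau
    apply dvd_of_castHom (dvd_pow_self p hk)
    rw [map_sub, map_neg, map_sum, map_pow, hra]
    have h1 : ∑ j ∈ univ.erase i0, ZMod.castHom (dvd_pow_self p hk) (ZMod p) (y w j ^ k) =
        ∑ j ∈ univ.erase i0, z j ^ k := by
      apply sum_congr rfl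
      intro j hj
      rw [map_pow, hred w j (ne_of_mem_erase hj)]
    rw [h1]
    have h2 := add_sum_erase univ (fun j => z j ^ k) (mem_univ i0)
    rw [hz] at h2
    linear_combination -h2
  choose r hr1 hr2 using hex
  set F : ({j : Fin d // j ≠ i0} → Fin (p ^ (k - 1))) → Fin d → ZMod (p ^ k) :=
    fun w j => if j = i0 then r w else y w j with hF
  have hFi0 : ∀ w, F w i0 = r w := by intro w; simp [hF]
  have hFj : ∀ w j, j ≠ i0 → F w j = y w j := by intro w j h; simp only [hF, if_neg h]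
  have hc : (univ : Finset ({j : Fin d // j ≠ i0} → Fin (p ^ (k - 1)))).card = (p ^ (k - 1)) ^ (d - 1) := by
    rw [card_univ, Fintype.card_fun, Fintype.card_fin]
    congr 1
    rw [Fintype.card_subtype_compl, Fintype.card_fin, Fintype.card_subtype_eq]
  rw [← hc]
  apply card_le_card_of_injOn F
  · intro w _
    rw [mem_coe, mem_filter, mem_filter]
    refine ⟨⟨mem_univ _, ?_⟩, ?_⟩
    · rw [← add_sum_erase univ (fun j => F w j ^ k) (mem_univ i0)]
      have h1 : ∑ j ∈ univ.erase i0, F w j ^ k = ∑ j ∈ univ.erase i0, y w j ^ k := by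
        apply sum_congr rfl
        intro j hj
        rw [hFj w j (ne_of_mem_erase hj)]
      rw [h1, hFi0, hr1]
      ring
    · funext j
      unfold red
      by_cases h : j = i0
      · subst h
        rw [hFi0]
        have h1 := castHom_of_dvd (dvd_pow_self p hk) _ (hr2 w)
        rw [map_sub, hra, sub_eq_zero] at h1
        exact h1
      · rw [hFj w j h]
        exact hred w j h
  · intro w _ w' _ h
    funext j
    have h1 : F w j.1 = F w' j.1 := congrFun h j.1
    rw [hFj w j.1 j.2, hFj w' j.1 j.2, hyne w j.1 j.2, hyne w' j.1 j.2] at h1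
    have hlt : ∀ v : Fin (p ^ (k - 1)), (z j.1).val + p * (v : ℕ) < p ^ k := by
      intro v
      have h3 := ZMod.val_lt (z j.1)
      have h4 : (v : ℕ) + 1 ≤ p ^ (k - 1) := v.2
      calc (z j.1).val + p * (v : ℕ) < p + p * (v : ℕ) := by omega
        _ = p * ((v : ℕ) + 1) := by ring
        _ ≤ p * p ^ (k - 1) := Nat.mul_le_mul_left _ h4
        _ = p ^ k := hpk'
    have h2 := cast_inj_of_lt (hlt _) (hlt _) h1
    have h5 : p * ((w ⟨j.1, j.2⟩ : Fin _) : ℕ) = p * ((w' ⟨j.1, j.2⟩ : Fin _) : ℕ) := by omega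
    exact Fin.ext (Nat.eq_of_mul_eq_mul_left hp.pos h5)

theorem M_pow_ge [Fact p.Prime] (hk : k ≠ 0) (hpk : ¬ p ∣ k) :
    (p ^ (k - 1)) ^ d + (M p k d - 1) * (p ^ (k - 1)) ^ (d - 1) ≤ M (p ^ k) k d := by
  classical
  have hp : p.Prime := Fact.out
  have : NeZero (p ^ k) := ⟨pow_ne_zero _ hp.ne_zero⟩
  have hM1 : M (p ^ k) k d = (univ.filter (fun x : Fin d → ZMod (p ^ k) => ∑ i, x i ^ k = 0)).card := by
    unfold M
    rw [Nat.card_eq_fintype_card, Fintype.card_subtype]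
  have hM2 : M p k d = (univ.filter (fun x : Fin d → ZMod p => ∑ i, x i ^ k = 0)).card := by
    unfold M
    rw [Nat.card_eq_fintype_card, Fintype.card_subtype]
  set S := univ.filter (fun x : Fin d → ZMod (p ^ k) => ∑ i, x i ^ k = 0) with hS
  set S0 := univ.filter (fun x : Fin d → ZMod p => ∑ i, x i ^ k = 0) with hS0
  have hmap : ∀ x ∈ S, red hk x ∈ S0 := by
    intro x hx
    rw [hS, mem_filter] at hx
    rw [hS0, mem_filter]
    refine ⟨mem_univ _, ?_⟩
    have := congrArg (ZMod.castHom (dvd_pow_self p hk) (ZMod p)) hx.2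
    rw [map_sum, map_zero] at this
    rw [← this]
    apply sum_congr rfl
    intro i _
    rw [map_pow]
    rfl
  have h0 : (0 : Fin d → ZMod p) ∈ S0 := by
    rw [hS0, mem_filter]
    refine ⟨mem_univ _, ?_⟩
    simp [hk]
  rw [hM1, card_eq_sum_card_fiberwise hmap, hM2, ← add_sum_erase S0 _ h0]
  apply Nat.add_le_add
  · exact fiber_zero hk
  · have h1 : (S0.card - 1) * (p ^ (k - 1)) ^ (d - 1) = ∑ _z ∈ S0.erase 0, (p ^ (k - 1)) ^ (d - 1) := by
      rw [sum_const, card_erase_of_mem h0, smul_eq_mul]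
    rw [h1]
    apply sum_le_sum
    intro z hz
    have hz1 := mem_of_mem_erase hz
    rw [hS0, mem_filter] at hz1
    exact fiber_ne hk hpk z hz1.2 (ne_of_mem_erase hz)

end Pool.Agent.TH854.KS
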