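import Mathlib
import Pool.Agent.TH854.KS.K2

/-! Number of solutions modulo a prime, by Gauss sums of order `k`. -/

open Finset

namespace Pool.Agent.TH854.KS

variable {p : ℕ} [Fact p.Prime]

/-- the additive character -/
noncomputable def ψ (p : ℕ) [Fact p.Prime] : AddChar (ZMod p) ℂ :=
  have : NeZero p := ⟨(Fact.out : p.Prime).ne_zero⟩
  ZMod.stdAddChar

lemma ψ_prim : (ψ p).IsPrimitive := by
  have : NeZero p := ⟨(Fact.out : p.Prime).ne_zero⟩
  exact ZMod.isPrimitive_stdAddChar p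

/-- the Gauss sum of order `k` -/
noncomputable def GS (p : ℕ) [Fact p.Prime] (k : ℕ) (t : ZMod p) : ℂ := ∑ x : ZMod p, ψ p (t * x ^ k)

lemma GS_zero (k : ℕ) : GS p k 0 = p := by
  unfold GS
  simp [AddChar.map_zero_eq_one, ZMod.card]

lemma char_sum {ι : Type*} (s : Finset ι) (f : ι → ZMod p) :
    ψ p (∑ i ∈ s, f i) = ∏ i ∈ s, ψ p (f i) := by
  classical
  induction s using Finset.induction_on with
  | empty => simp [AddChar.map_zero_eq_one]
  | insert a s ha ih => rw [sum_insert ha, prod_insert ha, AddChar.map_add_eq_mul, ih]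

lemma sum_GS_pow (k d : ℕ) : ∑ t : ZMod p, GS p k t ^ d = (p : ℂ) * M p k d := by
  classical
  have h1 : ∀ t : ZMod p, GS p k t ^ d = ∑ x : Fin d → ZMod p, ψ p (t * ∑ i, x i ^ k) := by
    intro t
    unfold GS
    rw [Fintype.sum_pow]
    apply sum_congr rfl
    intro x _
    rw [mul_sum, char_sum]
  simp_rw [h1]
  rw [sum_comm]
  have h2 : ∀ x : Fin d → ZMod p, ∑ t : ZMod p, ψ p (t * ∑ i, x i ^ k) =
      if ∑ i, x i ^ k = 0 then (p : ℂ) else 0 := by
    intro x
    rw [AddChar.sum_mulShift _ ψ_prim]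
    split_ifs
    · simp [ZMod.card]
    · simp
  simp_rw [h2]
  rw [← sum_filter, sum_const, nsmul_eq_mul, mul_comm]
  congr 2
  unfold M
  rw [Nat.card_eq_fintype_card, Fintype.card_subtype]

lemma conj_ψ (a : ZMod p) : (starRingEnd ℂ) (ψ p a) = ψ p (-a) := by
  rw [AddChar.map_neg_eq_conj]

lemma card_roots_le {k : ℕ} (hk : 0 < k) (a : ZMod p) :
    (univ.filter (fun y : ZMod p => y ^ k = a)).card ≤ k := by
  classical
  calc (univ.filter (fun y : ZMod p => y ^ k = a)).card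
      ≤ (Polynomial.nthRoots k a).toFinset.card := by
        apply card_le_card
        intro y hy
        rw [mem_filter] at hy
        rw [Multiset.mem_toFinset, Polynomial.mem_nthRoots hk]
        exact hy.2
    _ ≤ Multiset.card (Polynomial.nthRoots k a) := Multiset.toFinset_card_le _
    _ ≤ k := Polynomial.card_nthRoots k a

lemma sum_normSq {k : ℕ} (hk : 0 < k) :
    ∑ t : ZMod p, ‖GS p k t‖ ^ 2 ≤ p * (1 + k * (p - 1)) := by
  classical
  have hp : p.Prime := Fact.out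
  have h1 : ∀ t : ZMod p, ((‖GS p k t‖ ^ 2 : ℝ) : ℂ) =
      ∑ x : ZMod p, ∑ y : ZMod p, ψ p (t * (x ^ k - y ^ k)) := by
    intro t
    rw [Complex.ofReal_pow, ← Complex.mul_conj']
    unfold GS
    rw [map_sum, sum_mul_sum]
    apply sum_congr rfl
    intro x _
    apply sum_congr rfl
    intro y _
    rw [conj_ψ, ← AddChar.map_add_eq_mul]
    congr 1
    ring
  have h2 : ((∑ t : ZMod p, ‖GS p k t‖ ^ 2 : ℝ) : ℂ) =
      ∑ x : ZMod p, (p : ℂ) * (univ.filter (fun y : ZMod p => y ^ k = x ^ k)).card := by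
    rw [Complex.ofReal_sum]
    simp_rw [h1]
    rw [sum_comm]
    apply sum_congr rfl
    intro x _
    rw [sum_comm]
    have h3 : ∀ y : ZMod p, ∑ t : ZMod p, ψ p (t * (x ^ k - y ^ k)) = if y ^ k = x ^ k then (p : ℂ) else 0 := by
      intro y
      rw [AddChar.sum_mulShift _ ψ_prim]
      by_cases h : y ^ k = x ^ k
      · rw [if_pos (by rw [h, sub_self]), if_pos h, ZMod.card]
      · rw [if_neg (by intro h'; exact h (sub_eq_zero.mp h').symm), if_neg h]
        simp
    simp_rw [h3]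
    rw [← sum_filter, sum_const, nsmul_eq_mul, mul_comm]
  have h4 : (∑ t : ZMod p, ‖GS p k t‖ ^ 2 : ℝ) =
      ∑ x : ZMod p, (p : ℝ) * (univ.filter (fun y : ZMod p => y ^ k = x ^ k)).card := by
    exact_mod_cast h2
  rw [h4, ← mul_sum]
  apply mul_le_mul_of_nonneg_left _ (by positivity)
  rw [← add_sum_erase univ _ (mem_univ (0 : ZMod p))]
  have h5 : (((univ.filter (fun y : ZMod p => y ^ k = 0 ^ k)).card : ℕ) : ℝ) ≤ 1 := by
    have : (univ.filter (fun y : ZMod p => y ^ k = 0 ^ k)) ⊆ {0} := by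
      intro y hy
      rw [mem_filter, zero_pow hk.ne'] at hy
      rw [mem_singleton]
      exact pow_eq_zero_iff hk.ne' |>.mp hy.2
    have h6 := card_le_card this
    rw [card_singleton] at h6
    exact_mod_cast h6
  have h7 : ∑ x ∈ univ.erase (0 : ZMod p), (((univ.filter (fun y : ZMod p => y ^ k = x ^ k)).card : ℕ) : ℝ)
      ≤ ∑ _x ∈ univ.erase (0 : ZMod p), (k : ℝ) := by
    apply sum_le_sum
    intro x _
    exact_mod_cast card_roots_le hk _
  rw [sum_const, card_erase_of_mem (mem_univ _), card_univ, ZMod.card, nsmul_eq_mul,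
    Nat.cast_sub hp.one_lt.le, Nat.cast_one] at h7
  linarith

lemma GS_class {k : ℕ} (t u : ZMod p) (hu : u ≠ 0) : GS p k (t * u ^ k) = GS p k t := by
  unfold GS
  have : ∑ x : ZMod p, ψ p (t * u ^ k * x ^ k) = ∑ x : ZMod p, ψ p (t * (u * x) ^ k) := by
    apply sum_congr rfl
    intro x _
    congr 1
    rw [mul_pow]; ring
  rw [this]
  exact Equiv.sum_comp (Equiv.mulLeft₀ u hu) (fun x => ψ p (t * x ^ k))

lemma GS_bound {k : ℕ} (hk : 0 < k) {t : ZMod p} (ht : t ≠ 0) :
    ‖GS p k t‖ ^ 2 ≤ (k : ℝ) ^ 2 * p := by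
  classical
  have hp : p.Prime := Fact.out
  have hp1 : (1 : ℝ) < p := by exact_mod_cast hp.one_lt
  have h1 := sum_normSq (p := p) hk
  rw [← add_sum_erase univ _ (mem_univ (0 : ZMod p)), GS_zero] at h1
  have h2 : ‖((p : ℕ) : ℂ)‖ = p := by simp
  rw [h2] at h1
  -- the sum over the class of `t`
  have h3 : ∑ _u ∈ univ.erase (0 : ZMod p), ‖GS p k t‖ ^ 2 ≤
      k * ∑ s ∈ univ.erase (0 : ZMod p), ‖GS p k s‖ ^ 2 := by
    have e1 : ∑ _u ∈ univ.erase (0 : ZMod p), ‖GS p k t‖ ^ 2 =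
        ∑ u ∈ univ.erase (0 : ZMod p), ‖GS p k (t * u ^ k)‖ ^ 2 := by
      apply sum_congr rfl
      intro u hu
      rw [GS_class t u (ne_of_mem_erase hu)]
    have hmap : ∀ u ∈ univ.erase (0 : ZMod p), t * u ^ k ∈ univ.erase (0 : ZMod p) := by
      intro u hu
      rw [mem_erase]
      exact ⟨mul_ne_zero ht (pow_ne_zero _ (ne_of_mem_erase hu)), mem_univ _⟩
    rw [e1, ← sum_fiberwise_of_maps_to hmap, mul_sum]
    apply sum_le_sum
    intro s _
    have e2 : ∑ u ∈ (univ.erase (0 : ZMod p)).filter (fun u => t * u ^ k = s), ‖GS p k (t * u ^ k)‖ ^ 2 =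
        ∑ _u ∈ (univ.erase (0 : ZMod p)).filter (fun u => t * u ^ k = s), ‖GS p k s‖ ^ 2 := by
      apply sum_congr rfl
      intro u hu
      rw [(mem_filter.mp hu).2]
    rw [e2, sum_const, nsmul_eq_mul]
    apply mul_le_mul_of_nonneg_right _ (by positivity)
    have e3 : (univ.erase (0 : ZMod p)).filter (fun u => t * u ^ k = s) ⊆
        univ.filter (fun u : ZMod p => u ^ k = t⁻¹ * s) := by
      intro u hu
      rw [mem_filter] at hu ⊢
      refine ⟨mem_univ _, ?_⟩
      rw [← hu.2]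
      field_simp
    exact_mod_cast (card_le_card e3).trans (card_roots_le hk _)
  rw [sum_const, card_erase_of_mem (mem_univ _), card_univ, ZMod.card, nsmul_eq_mul,
    Nat.cast_sub hp.one_lt.le, Nat.cast_one] at h3
  set T1 := ∑ s ∈ univ.erase (0 : ZMod p), ‖GS p k s‖ ^ 2
  have hk1 : (1 : ℝ) ≤ k := by exact_mod_cast hk
  have h4 : T1 ≤ p * (p - 1) * (k - 1) := by nlinarith
  have h5 : ((p : ℝ) - 1) * ‖GS p k t‖ ^ 2 ≤ (p - 1) * (k * (k - 1) * p) := by
    calc ((p : ℝ) - 1) * ‖GS p k t‖ ^ 2 ≤ k * T1 := h3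
      _ ≤ k * (p * (p - 1) * (k - 1)) := mul_le_mul_of_nonneg_left h4 (by positivity)
      _ = _ := by ring
  have h6 := le_of_mul_le_mul_left h5 (by linarith)
  nlinarith

lemma GS_norm {k : ℕ} (hk : 0 < k) {t : ZMod p} (ht : t ≠ 0) :
    ‖GS p k t‖ ≤ k * √p := by
  have h := GS_bound hk ht
  refine (abs_le_of_sq_le_sq' ?_ (by positivity)).2
  rw [mul_pow, Real.sq_sqrt (by positivity)]
  exact h

/-- general lower bound for the number of solutions -/
theorem M_ge {k : ℕ} (hk : 0 < k) (d : ℕ) :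
    (p : ℝ) ^ d - (p - 1) * (k * √p) ^ d ≤ p * (M p k d : ℝ) := by
  classical
  have hp : p.Prime := Fact.out
  have h := sum_GS_pow (p := p) k d
  rw [← add_sum_erase univ _ (mem_univ (0 : ZMod p)), GS_zero] at h
  have h1 : ‖∑ t ∈ univ.erase (0 : ZMod p), GS p k t ^ d‖ ≤ (p - 1) * (k * √p) ^ d := by
    refine (norm_sum_le _ _).trans ?_
    have : ∑ t ∈ univ.erase (0 : ZMod p), ‖GS p k t ^ d‖ ≤ ∑ _t ∈ univ.erase (0 : ZMod p), (k * √p) ^ d := by
      apply sum_le_sum
      intro t ht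
      rw [norm_pow]
      exact pow_le_pow_left₀ (norm_nonneg _) (GS_norm hk (ne_of_mem_erase ht)) d
    refine this.trans (le_of_eq ?_)
    rw [sum_const, card_erase_of_mem (mem_univ _), card_univ, ZMod.card, nsmul_eq_mul,
      Nat.cast_sub hp.one_lt.le, Nat.cast_one]
  have h2 := Complex.abs_re_le_norm (∑ t ∈ univ.erase (0 : ZMod p), GS p k t ^ d)
  have h3 := (abs_le.mp (h2.trans h1)).1
  have h4 := congrArg Complex.re h
  rw [Complex.add_re] at h4
  have h5 : (((p : ℕ) : ℂ) ^ d).re = (p : ℝ) ^ d := by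
    rw [← Complex.ofReal_natCast, ← Complex.ofReal_pow, Complex.ofReal_re]
  have h6 : ((p : ℂ) * (M p k d : ℂ)).re = p * (M p k d : ℝ) := by
    rw [← Complex.ofReal_natCast, ← Complex.ofReal_natCast, ← Complex.ofReal_mul, Complex.ofReal_re]
  rw [h5, h6] at h4
  linarith

/-- for odd `k` and an even number of variables the count is at least the expected one -/
theorem M_ge_odd {k : ℕ} (hk : Odd k) {d : ℕ} (hd : Even d) :
    (p : ℝ) ^ d ≤ p * (M p k d : ℝ) := by
  classical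
  have h := sum_GS_pow (p := p) k d
  rw [← add_sum_erase univ _ (mem_univ (0 : ZMod p)), GS_zero] at h
  have hreal : ∀ t : ZMod p, (starRingEnd ℂ) (GS p k t) = GS p k t := by
    intro t
    unfold GS
    rw [map_sum]
    simp_rw [conj_ψ]
    rw [← Equiv.sum_comp (Equiv.neg (ZMod p)) (fun x => ψ p (t * x ^ k))]
    apply sum_congr rfl
    intro x _
    congr 1
    simp only [Equiv.neg_apply, hk.neg_pow]
    ring
  have h1 : ∀ t : ZMod p, 0 ≤ (GS p k t ^ d).re := by
    intro t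
    have h2 := Complex.conj_eq_iff_re.mp (hreal t)
    rw [← h2, ← Complex.ofReal_pow, Complex.ofReal_re]
    exact hd.pow_nonneg _
  have h4 := congrArg Complex.re h
  rw [Complex.add_re, Complex.re_sum] at h4
  have h5 : (((p : ℕ) : ℂ) ^ d).re = (p : ℝ) ^ d := by
    rw [← Complex.ofReal_natCast, ← Complex.ofReal_pow, Complex.ofReal_re]
  have h6 : ((p : ℂ) * (M p k d : ℂ)).re = p * (M p k d : ℝ) := by
    rw [← Complex.ofReal_natCast, ← Complex.ofReal_natCast, ← Complex.ofReal_mul, Complex.ofReal_re]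
  rw [h5, h6] at h4
  have h7 : 0 ≤ ∑ t ∈ univ.erase (0 : ZMod p), (GS p k t ^ d).re := sum_nonneg (fun t _ => h1 t)
  linarith

end Pool.Agent.TH854.KS
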