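import Mathlib
import Pool.Agent.TH854.KS.K3

/-! Local densities modulo `p ^ k`. -/

open Finset

namespace Pool.Agent.TH854.KS

variable {p : ℕ} [Fact p.Prime]

lemma M_ge' {k : ℕ} (hk : 0 < k) (d : ℕ) (hd : 1 ≤ d) :
    (p : ℝ) ^ (d - 1) - (k * √p) ^ d ≤ (M p k d : ℝ) := by
  have hp : p.Prime := Fact.out
  have hp0 : (0 : ℝ) < p := by exact_mod_cast hp.pos
  have h := M_ge (p := p) hk d
  have e : (p : ℝ) ^ d = p * p ^ (d - 1) := by
    rw [← pow_succ', Nat.sub_add_cancel hd]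
  have h1 : 0 ≤ ((k : ℝ) * √p) ^ d := by positivity
  rw [e] at h
  have h2 : (p : ℝ) * (p ^ (d - 1) - (k * √p) ^ d) ≤ p * (M p k d : ℝ) := by nlinarith
  exact le_of_mul_le_mul_left h2 hp0

omit [Fact p.Prime] in
lemma sqrt_pow (n : ℕ) : ((√(p : ℝ)) ^ 2) ^ n = (p : ℝ) ^ n := by
  rw [Real.sq_sqrt (by positivity)]

/-- enough solutions modulo `p`, `d = k + 1` -/
lemma Mp_succ {k : ℕ} (hk : 3 ≤ k) (hp0 : ((2 * ((k : ℝ) ^ (k + 1) + 1)) ^ 2) ≤ p) :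
    (p : ℝ) ^ k + p ^ (k - 1) / 2 ≤ p ^ (k - 1) + (M p k (k + 1) : ℝ) - 1 := by
  have hp : p.Prime := Fact.out
  have hp2 : (2 : ℝ) ≤ p := by exact_mod_cast hp.two_le
  rcases Nat.eq_or_lt_of_le hk with h3 | h4
  · subst h3
    have h := M_ge_odd (p := p) (k := 3) (by decide) (d := 4) (by decide)
    have h' : (p : ℝ) * p ^ 3 ≤ p * (M p 3 4 : ℝ) := by
      calc (p : ℝ) * p ^ 3 = p ^ 4 := by ring
        _ ≤ _ := h
    have h1 := le_of_mul_le_mul_left h' (by linarith)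
    norm_num
    nlinarith
  · have h := M_ge' (p := p) (k := k) (by omega) (k + 1) (by omega)
    rw [Nat.add_sub_cancel] at h
    set q : ℝ := √p with hq
    have hq0 : 0 ≤ q := Real.sqrt_nonneg _
    have hA : (1 : ℝ) ≤ (k : ℝ) ^ (k + 1) := by
      apply one_le_pow₀
      exact_mod_cast (by omega : 1 ≤ k)
    have hq1 : 2 * ((k : ℝ) ^ (k + 1) + 1) ≤ q := by
      rw [hq]
      apply Real.le_sqrt_of_sq_le
      exact hp0
    have hq2 : 1 ≤ q := by linarith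
    have e1 : (p : ℝ) ^ (k - 1) = q ^ (k + 1) * q ^ (k - 3) := by
      rw [← sqrt_pow, ← pow_mul, ← pow_add]
      congr 1
      omega
    have h5 : q ≤ q ^ (k - 3) := by
      calc q = q ^ 1 := (pow_one q).symm
        _ ≤ q ^ (k - 3) := pow_le_pow_right₀ hq2 (by omega)
    have h6 : 1 ≤ q ^ (k + 1) := one_le_pow₀ hq2
    have h7 : ((k : ℝ) * q) ^ (k + 1) + 1 ≤ p ^ (k - 1) / 2 := by
      rw [e1, mul_pow]
      have : q ^ (k + 1) * (2 * ((k : ℝ) ^ (k + 1) + 1)) ≤ q ^ (k + 1) * q ^ (k - 3) :=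
        mul_le_mul_of_nonneg_left (hq1.trans h5) (by positivity)
      nlinarith
    linarith

/-- enough solutions modulo `p`, `d = k` -/
lemma Mp_self {k : ℕ} (hk : 3 ≤ k) (hp0 : ((2 * ((k : ℝ) ^ (k + 1) + 1)) ^ 2) ≤ p) :
    (p : ℝ) ^ (k - 2) / 2 ≤ (M p k k : ℝ) - 1 := by
  have hp : p.Prime := Fact.out
  have hp2 : (2 : ℝ) ≤ p := by exact_mod_cast hp.two_le
  have h := M_ge' (p := p) (k := k) (by omega) k (by omega)
  set q : ℝ := √p with hq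
  have hq0 : 0 ≤ q := Real.sqrt_nonneg _
  have hk1 : (1 : ℝ) ≤ k := by exact_mod_cast (by omega : 1 ≤ k)
  have hA : (1 : ℝ) ≤ (k : ℝ) ^ k := one_le_pow₀ hk1
  have hA2 : (k : ℝ) ^ k ≤ (k : ℝ) ^ (k + 1) := pow_le_pow_right₀ hk1 (by omega)
  have hA3 : 3 * (k : ℝ) ^ k ≤ (k : ℝ) ^ (k + 1) := by
    rw [pow_succ]
    have : (3 : ℝ) ≤ k := by exact_mod_cast hk
    nlinarith
  have hq1 : 2 * ((k : ℝ) ^ (k + 1) + 1) ≤ q := by
    rw [hq]
    apply Real.le_sqrt_of_sq_le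
    exact hp0
  have hq2 : 1 ≤ q := by linarith
  have e1 : (p : ℝ) ^ (k - 1) = q ^ k * q ^ (k - 2) := by
    rw [← sqrt_pow, ← pow_mul, ← pow_add]
    congr 1
    omega
  have e2 : (p : ℝ) ^ (k - 1) = p * p ^ (k - 2) := by
    rw [← pow_succ']
    congr 1
    omega
  have h5 : q ≤ q ^ (k - 2) := by
    calc q = q ^ 1 := (pow_one q).symm
      _ ≤ q ^ (k - 2) := pow_le_pow_right₀ hq2 (by omega)
  have h6 : 1 ≤ q ^ k := one_le_pow₀ hq2
  have h7 : ((k : ℝ) * q) ^ k + 1 ≤ p ^ (k - 1) / 2 := by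
    rw [e1, mul_pow]
    have : q ^ k * (2 * ((k : ℝ) ^ (k + 1) + 1)) ≤ q ^ k * q ^ (k - 2) :=
      mul_le_mul_of_nonneg_left (hq1.trans h5) (by positivity)
    nlinarith
  have h8 : (p : ℝ) ^ (k - 2) ≤ p ^ (k - 1) / 2 := by
    rw [e2]
    have : 0 < (p : ℝ) ^ (k - 2) := by positivity
    nlinarith
  have h9 : 0 < (p : ℝ) ^ (k - 2) := by positivity
  linarith

lemma key_arith (p k : ℕ) (hk : 3 ≤ k) : (p : ℝ) ^ (k * (k + 1 - 1)) = (p ^ (k - 1)) ^ k * p ^ k := by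
  rw [← pow_mul, ← pow_add]
  congr 1
  obtain ⟨m, rfl⟩ : ∃ m, k = m + 1 := ⟨k - 1, by omega⟩
  simp
  ring

/-- the local density at `p`, in both dimensions -/
theorem density {k d : ℕ} (hk : 3 ≤ k) (hd : d = k ∨ d = k + 1)
    (hp0 : ((2 * ((k : ℝ) ^ (k + 1) + 1)) ^ 2) ≤ p) :
    (1 + 1 / (2 * (p : ℝ))) * (p : ℝ) ^ (k * (d - 1)) ≤ (M (p ^ k) k d : ℝ) := by
  have hp : p.Prime := Fact.out
  have hpR : (0 : ℝ) < p := by exact_mod_cast hp.pos
  have hp1 : (1 : ℝ) ≤ p := by exact_mod_cast hp.one_lt.le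
  have hpk : ¬ p ∣ k := by
    intro h
    have h1 := Nat.le_of_dvd (by omega) h
    have h2 : (p : ℝ) ≤ k := by exact_mod_cast h1
    have hk1 : (1 : ℝ) ≤ k := by exact_mod_cast (by omega : 1 ≤ k)
    have h3 : (k : ℝ) ≤ k ^ (k + 1) := by
      calc (k : ℝ) = k ^ 1 := (pow_one _).symm
        _ ≤ _ := pow_le_pow_right₀ hk1 (by omega)
    nlinarith
  have hM := M_pow_ge (p := p) (k := k) (d := d) (by omega) hpk
  have hM0 : 1 ≤ M p k d := by
    rcases hd with rfl | rfl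
    · have h1 := Mp_self (p := p) hk hp0
      have h2 : 0 < (p : ℝ) ^ (d - 2) / 2 := by positivity
      have h3 : (0 : ℝ) < (M p d d : ℝ) := by linarith
      exact_mod_cast h3
    · have h1 := Mp_succ (p := p) hk hp0
      by_contra hcon
      have h0 : M p k (k + 1) = 0 := by omega
      rw [h0] at h1
      have e2 : (p : ℝ) ^ k = p * p ^ (k - 1) := by
        rw [← pow_succ']; congr 1; omega
      have h2 : 0 < (p : ℝ) ^ (k - 1) := by positivity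
      push_cast at h1
      nlinarith
  have hM' : ((p : ℝ) ^ (k - 1)) ^ d + ((M p k d : ℝ) - 1) * ((p : ℝ) ^ (k - 1)) ^ (d - 1) ≤
      (M (p ^ k) k d : ℝ) := by
    have h1 : (((p ^ (k - 1)) ^ d + (M p k d - 1) * (p ^ (k - 1)) ^ (d - 1) : ℕ) : ℝ) ≤ (M (p ^ k) k d : ℝ) := by
      exact_mod_cast hM
    push_cast [Nat.cast_sub hM0] at h1
    exact h1
  refine le_trans ?_ hM'
  rcases hd with rfl | rfl
  · -- d = k
    obtain ⟨m, rfl⟩ : ∃ m, d = m + 2 := ⟨d - 2, by omega⟩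
    have h1 := Mp_self (p := p) hk hp0
    simp only [Nat.add_sub_cancel, show m + 2 - 1 = m + 1 by omega] at h1 ⊢
    have e1 : (p : ℝ) ^ ((m + 2) * (m + 1)) = p ^ ((m + 1) * (m + 1)) * (p ^ m * p) := by
      rw [← pow_succ, ← pow_add]; congr 1; ring
    have e2 : ((p : ℝ) ^ (m + 1)) ^ (m + 2) = p ^ ((m + 1) * (m + 1)) * (p ^ m * p) := by
      rw [← pow_mul, ← pow_succ, ← pow_add]; congr 1
    have e3 : ((p : ℝ) ^ (m + 1)) ^ (m + 1) = p ^ ((m + 1) * (m + 1)) := by rw [← pow_mul]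
    rw [e1, e2, e3]
    have h2 : 0 < (p : ℝ) ^ ((m + 1) * (m + 1)) := by positivity
    have h3 : (1 + 1 / (2 * (p : ℝ))) * ((p : ℝ) ^ ((m + 1) * (m + 1)) * (p ^ m * p)) =
        (p : ℝ) ^ ((m + 1) * (m + 1)) * (p ^ m * p) + (p : ℝ) ^ ((m + 1) * (m + 1)) * (p ^ m / 2) := by
      field_simp
    rw [h3]
    have := mul_le_mul_of_nonneg_left h1 h2.le
    linarith
  · -- d = k + 1
    obtain ⟨m, rfl⟩ : ∃ m, k = m + 2 := ⟨k - 2, by omega⟩
    have h1 := Mp_succ (p := p) hk hp0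
    simp only [Nat.add_sub_cancel, show m + 2 - 1 = m + 1 by omega] at h1 ⊢
    have e1 : (p : ℝ) ^ ((m + 2) * (m + 2)) = p ^ ((m + 1) * (m + 2)) * p ^ (m + 2) := by
      rw [← pow_add]; congr 1; ring
    have e2 : ((p : ℝ) ^ (m + 1)) ^ (m + 2 + 1) = p ^ ((m + 1) * (m + 2)) * p ^ (m + 1) := by
      rw [← pow_mul, ← pow_add]; congr 1
    have e3 : ((p : ℝ) ^ (m + 1)) ^ (m + 2) = p ^ ((m + 1) * (m + 2)) := by rw [← pow_mul]
    have e4 : (p : ℝ) ^ (m + 2) = p ^ (m + 1) * p := by rw [← pow_succ]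
    rw [e1, e2, e3]
    have h2 : 0 < (p : ℝ) ^ ((m + 1) * (m + 2)) := by positivity
    have h3 : (1 + 1 / (2 * (p : ℝ))) * ((p : ℝ) ^ ((m + 1) * (m + 2)) * p ^ (m + 2)) =
        (p : ℝ) ^ ((m + 1) * (m + 2)) * (p ^ (m + 2) + p ^ (m + 1) / 2) := by
      rw [e4]
      field_simp
    rw [h3]
    have := mul_le_mul_of_nonneg_left h1 h2.le
    linarith

end Pool.Agent.TH854.KS
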