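import Mathlib
import Pool.Agent.TH854.KS.K4

/-! The averaging argument. -/

open Finset

namespace Pool.Agent.TH854.KS

/-- the set of representations of `n` as a sum of `d` `k`-th powers of natural numbers -/
def Rep (k d n : ℕ) : Set (Fin d → ℕ) := {y | ∑ i, y i ^ k = n}

lemma Rep_finite {k : ℕ} (hk : 0 < k) (d n : ℕ) : (Rep k d n).Finite := by
  apply Set.Finite.subset (Set.Finite.pi' (fun _ : Fin d => Set.finite_Iic n))
  intro y hy i
  have hy' : ∑ i, y i ^ k = n := hy
  have h1 : y i ^ k ≤ n := by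
    rw [← hy']
    exact single_le_sum (f := fun i => y i ^ k) (fun _ _ => Nat.zero_le _) (mem_univ i)
  exact (Nat.le_self_pow hk.ne' (y i)).trans h1

/-- the box -/
def Box (d X : ℕ) : Finset (Fin d → ℕ) := Fintype.piFinset (fun _ => range X)

lemma mem_Box {d X : ℕ} (y : Fin d → ℕ) : y ∈ Box d X ↔ ∀ i, y i < X := by
  simp [Box]

lemma box_ge {W k d L : ℕ} (hW : 0 < W) :
    L ^ d * M W k d ≤ ((Box d (W * L)).filter (fun y => W ∣ ∑ i, y i ^ k)).card := by
  classical
  have : NeZero W := ⟨hW.ne'⟩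
  have hM : M W k d = (univ.filter (fun x : Fin d → ZMod W => ∑ i, x i ^ k = 0)).card := by
    unfold M
    rw [Nat.card_eq_fintype_card, Fintype.card_subtype]
  have hL : L ^ d = (univ : Finset (Fin d → Fin L)).card := by
    rw [card_univ, Fintype.card_fun, Fintype.card_fin, Fintype.card_fin]
  rw [hM, hL, ← card_product]
  apply card_le_card_of_injOn (fun q i => (q.2 i).val + W * (q.1 i : ℕ))
  · intro q hq
    rw [mem_coe, mem_product, mem_filter] at hq
    rw [mem_coe, mem_filter, mem_Box]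
    refine ⟨fun i => ?_, ?_⟩
    · have h1 := ZMod.val_lt (q.2 i)
      have h2 : ((q.1 i : ℕ)) + 1 ≤ L := (q.1 i).2
      calc (q.2 i).val + W * (q.1 i : ℕ) < W + W * (q.1 i : ℕ) := by omega
        _ = W * ((q.1 i : ℕ) + 1) := by ring
        _ ≤ W * L := Nat.mul_le_mul_left _ h2
    · rw [← ZMod.natCast_eq_zero_iff]
      push_cast
      have h3 := hq.2.2
      rw [← h3]
      apply sum_congr rfl
      intro i _
      rw [ZMod.natCast_self, zero_mul, add_zero, ZMod.natCast_zmod_val]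
  · intro q _ q' _ h
    have key : ∀ i, (q.2 i).val = (q'.2 i).val ∧ (q.1 i : ℕ) = (q'.1 i : ℕ) := by
      intro i
      have h1 : (q.2 i).val + W * (q.1 i : ℕ) = (q'.2 i).val + W * (q'.1 i : ℕ) := congrFun h i
      have h2 := ZMod.val_lt (q.2 i)
      have h3 := ZMod.val_lt (q'.2 i)
      have h4 := congrArg (fun z => z % W) h1
      simp only [Nat.add_mul_mod_self_left, Nat.mod_eq_of_lt h2, Nat.mod_eq_of_lt h3] at h4
      refine ⟨h4, ?_⟩
      rw [h4] at h1
      exact Nat.eq_of_mul_eq_mul_left hW (by omega)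
    apply Prod.ext
    · funext i
      exact Fin.ext (key i).2
    · funext i
      exact ZMod.val_injective W (key i).1

/-- Suppose that the numbers of representations are at most `C X^(d-k)`. -/
theorem averaging {k d n0 : ℕ} {C : ℝ} (hk : 0 < k) (hkd : k ≤ d) (hn0 : 1 ≤ n0) (hC : 0 ≤ C)
    (H : ∀ X n : ℕ, 1 ≤ X → n0 ≤ n → n ≤ d * X ^ k → ((Rep k d n).ncard : ℝ) ≤ C * (X : ℝ) ^ (d - k))
    {W : ℕ} (hW : 0 < W) : (M W k d : ℝ) ≤ (1 + 2 * d * C) * (W : ℝ) ^ (d - 1) := by
  classical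
  have hd : 1 ≤ d := by omega
  set L := n0 with hL
  set X := W * L with hX
  have hX1 : 1 ≤ X := Nat.mul_pos hW hn0
  set B := (Box d X).filter (fun y => W ∣ ∑ i, y i ^ k) with hB
  set T := (range (d * X ^ k + 1)).filter (fun n => W ∣ n) with hT
  have hmaps : ∀ y ∈ B, ∑ i, y i ^ k ∈ T := by
    intro y hy
    rw [hB, mem_filter, mem_Box] at hy
    rw [hT, mem_filter, mem_range]
    refine ⟨?_, hy.2⟩
    have : ∑ i, y i ^ k ≤ ∑ _i : Fin d, X ^ k := by
      apply sum_le_sum
      intro i _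
      exact Nat.pow_le_pow_left (hy.1 i).le k
    rw [sum_const, card_univ, Fintype.card_fin, smul_eq_mul] at this
    omega
  have h1 : L ^ d * M W k d ≤ B.card := box_ge hW
  rw [card_eq_sum_card_fiberwise hmaps, ← sum_filter_add_sum_filter_not T (fun n => n < n0)] at h1
  have h2 : ∑ n ∈ T.filter (fun n => n < n0), (B.filter (fun y => ∑ i, y i ^ k = n)).card ≤ n0 ^ d := by
    have e : n0 ^ d = (Box d n0).card := by
      simp [Box]
    rw [e, ← card_biUnion]
    · apply card_le_card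
      intro y hy
      rw [mem_biUnion] at hy
      obtain ⟨n, hn, hy⟩ := hy
      rw [mem_filter] at hn hy
      rw [mem_Box]
      intro i
      have h3 : y i ^ k ≤ n := by
        rw [← hy.2]
        exact single_le_sum (f := fun i => y i ^ k) (fun _ _ => Nat.zero_le _) (mem_univ i)
      exact lt_of_le_of_lt ((Nat.le_self_pow hk.ne' (y i)).trans h3) hn.2
    · intro a _ b _ hab
      rw [Function.onFun, disjoint_left]
      intro y hy1 hy2
      rw [mem_filter] at hy1 hy2
      exact hab (hy1.2.symm.trans hy2.2)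
  have h3 : (((∑ n ∈ T.filter (fun n => ¬ n < n0), (B.filter (fun y => ∑ i, y i ^ k = n)).card : ℕ)) : ℝ) ≤
      (T.card : ℝ) * (C * (X : ℝ) ^ (d - k)) := by
    push_cast
    calc ∑ n ∈ T.filter (fun n => ¬ n < n0), ((B.filter (fun y => ∑ i, y i ^ k = n)).card : ℝ)
        ≤ ∑ _n ∈ T.filter (fun n => ¬ n < n0), C * (X : ℝ) ^ (d - k) := by
          apply sum_le_sum
          intro n hn
          rw [mem_filter, hT, mem_filter, mem_range] at hn
          refine le_trans ?_ (H X n hX1 (by omega) (by omega))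
          have h4 : (B.filter (fun y => ∑ i, y i ^ k = n)).card ≤ (Rep k d n).ncard := by
            rw [← Set.ncard_coe_finset]
            apply Set.ncard_le_ncard _ (Rep_finite hk d n)
            intro y hy
            rw [mem_coe, mem_filter] at hy
            exact hy.2
          exact_mod_cast h4
      _ = ((T.filter (fun n => ¬ n < n0)).card : ℝ) * (C * (X : ℝ) ^ (d - k)) := by
          rw [sum_const, nsmul_eq_mul]
      _ ≤ _ := by
          apply mul_le_mul_of_nonneg_right _ (by positivity)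
          exact_mod_cast card_le_card (filter_subset _ _)
  have hXk : X ^ k = W * (W ^ (k - 1) * L ^ k) := by
    rw [hX, mul_pow, ← mul_assoc, ← pow_succ', Nat.sub_add_cancel hk]
  have h5 : T.card ≤ 2 * d * (W ^ (k - 1) * L ^ k) := by
    have h6 : T.card ≤ d * (W ^ (k - 1) * L ^ k) + 1 := by
      have h7 : T ⊆ (range (d * (W ^ (k - 1) * L ^ k) + 1)).image (fun m => W * m) := by
        intro n hn
        rw [hT, mem_filter, mem_range] at hn
        obtain ⟨m, rfl⟩ := hn.2
        rw [mem_image]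
        refine ⟨m, ?_, rfl⟩
        rw [mem_range]
        have h8 : W * m ≤ W * (d * (W ^ (k - 1) * L ^ k)) := by
          calc W * m ≤ d * X ^ k := by omega
            _ = W * (d * (W ^ (k - 1) * L ^ k)) := by rw [hXk]; ring
        have := Nat.le_of_mul_le_mul_left h8 hW
        omega
      exact (card_le_card h7).trans (card_image_le.trans (by rw [card_range]))
    have h9 : 1 ≤ d * (W ^ (k - 1) * L ^ k) := by
      apply Nat.mul_pos hd
      positivity
    calc T.card ≤ d * (W ^ (k - 1) * L ^ k) + 1 := h6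
      _ ≤ d * (W ^ (k - 1) * L ^ k) + d * (W ^ (k - 1) * L ^ k) := by omega
      _ = _ := by ring
  have h5' : (T.card : ℝ) ≤ 2 * d * ((W : ℝ) ^ (k - 1) * (L : ℝ) ^ k) := by exact_mod_cast h5
  have h1' : (L : ℝ) ^ d * (M W k d : ℝ) ≤ (n0 : ℝ) ^ d + (T.card : ℝ) * (C * (X : ℝ) ^ (d - k)) := by
    have h10 : ((L ^ d * M W k d : ℕ) : ℝ) ≤ ((n0 ^ d : ℕ) : ℝ) + (T.card : ℝ) * (C * (X : ℝ) ^ (d - k)) := by
      refine (Nat.cast_le.mpr h1).trans ?_
      rw [Nat.cast_add]
      exact add_le_add (by exact_mod_cast h2) h3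
    push_cast at h10
    exact h10
  have hXR : (X : ℝ) ^ (d - k) = (W : ℝ) ^ (d - k) * (L : ℝ) ^ (d - k) := by
    rw [hX]; push_cast; rw [mul_pow]
  have e1 : (W : ℝ) ^ (k - 1) * (W : ℝ) ^ (d - k) = (W : ℝ) ^ (d - 1) := by
    rw [← pow_add]; congr 1; omega
  have e2 : (L : ℝ) ^ k * (L : ℝ) ^ (d - k) = (L : ℝ) ^ d := by
    rw [← pow_add]; congr 1; omega
  have h11 : (T.card : ℝ) * (C * (X : ℝ) ^ (d - k)) ≤ (L : ℝ) ^ d * (2 * d * C * (W : ℝ) ^ (d - 1)) := by
    calc (T.card : ℝ) * (C * (X : ℝ) ^ (d - k)) ≤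
        (2 * d * ((W : ℝ) ^ (k - 1) * (L : ℝ) ^ k)) * (C * (X : ℝ) ^ (d - k)) :=
          mul_le_mul_of_nonneg_right h5' (by positivity)
      _ = 2 * d * C * ((W : ℝ) ^ (k - 1) * (W : ℝ) ^ (d - k)) * ((L : ℝ) ^ k * (L : ℝ) ^ (d - k)) := by
          rw [hXR]; ring
      _ = _ := by rw [e1, e2]; ring
  have hLpos : (0 : ℝ) < (L : ℝ) ^ d := by
    have : (0 : ℝ) < L := by exact_mod_cast hn0
    positivity
  have hW1 : (1 : ℝ) ≤ (W : ℝ) ^ (d - 1) := by
    apply one_le_pow₀
    exact_mod_cast hW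
  have h12 : (L : ℝ) ^ d * (M W k d : ℝ) ≤ (L : ℝ) ^ d * (1 + 2 * d * C * (W : ℝ) ^ (d - 1)) := by
    rw [mul_add, mul_one]
    linarith
  have h13 := le_of_mul_le_mul_left h12 hLpos
  calc (M W k d : ℝ) ≤ 1 + 2 * d * C * (W : ℝ) ^ (d - 1) := h13
    _ ≤ (W : ℝ) ^ (d - 1) + 2 * d * C * (W : ℝ) ^ (d - 1) := by linarith
    _ = _ := by ring

end Pool.Agent.TH854.KS
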