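import Mathlib
import Pool.Agent.TH854.KS.K5

/-! No upper bound of the expected order in dimensions `k` and `k + 1`. -/

open Finset

namespace Pool.Agent.TH854.KS

lemma sum_le_prod (P : Finset ℕ) (a : ℕ → ℝ) (ha : ∀ p, 0 ≤ a p) :
    1 + ∑ p ∈ P, a p ≤ ∏ p ∈ P, (1 + a p) := by
  classical
  induction P using Finset.induction_on with
  | empty => simp
  | insert p P hp ih =>
    rw [sum_insert hp, prod_insert hp]
    have h1 : 0 ≤ ∑ p ∈ P, a p := sum_nonneg (fun p _ => ha p)
    have h2 := ha p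
    nlinarith

lemma exists_primes (N0 : ℕ) (B : ℝ) :
    ∃ P : Finset ℕ, (∀ p ∈ P, p.Prime ∧ N0 ≤ p) ∧ B ≤ ∏ p ∈ P, (1 + 1 / (2 * (p : ℝ))) := by
  classical
  have h := not_summable_one_div_on_primes
  have hnn : ∀ n, 0 ≤ Set.indicator {p | Nat.Prime p} (fun n : ℕ => (1 : ℝ) / n) n := by
    intro n
    apply Set.indicator_nonneg
    intro m _
    positivity
  rw [not_summable_iff_tendsto_nat_atTop_of_nonneg hnn] at h
  obtain ⟨N, hN⟩ := (h.eventually_ge_atTop (2 * |B| + ∑ n ∈ range N0, (1 : ℝ))).exists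
  refine ⟨(range N).filter (fun p => p.Prime ∧ N0 ≤ p), fun p hp => (mem_filter.mp hp).2, ?_⟩
  refine le_trans ?_ (sum_le_prod _ (fun p => 1 / (2 * (p : ℝ))) (fun p => by positivity))
  have h1 : ∑ n ∈ range N, Set.indicator {p | Nat.Prime p} (fun n : ℕ => (1 : ℝ) / n) n ≤
      ∑ p ∈ (range N).filter (fun p => p.Prime ∧ N0 ≤ p), (1 : ℝ) / p + ∑ n ∈ range N0, (1 : ℝ) := by
    rw [sum_filter]
    have h2 : ∑ n ∈ range N, Set.indicator {p | Nat.Prime p} (fun n : ℕ => (1 : ℝ) / n) n ≤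
        ∑ n ∈ range N, ((if n.Prime ∧ N0 ≤ n then (1 : ℝ) / n else 0) + (if n < N0 then 1 else 0)) := by
      apply sum_le_sum
      intro n _
      by_cases hn : n.Prime
      · rw [Set.indicator_of_mem (by exact hn)]
        by_cases hn2 : N0 ≤ n
        · rw [if_pos ⟨hn, hn2⟩, if_neg (by omega)]
          linarith
        · rw [if_neg (by tauto), if_pos (by omega), zero_add]
          rw [div_le_one (by exact_mod_cast hn.pos)]
          exact_mod_cast hn.one_lt.le
      · rw [Set.indicator_of_notMem (by exact hn), if_neg (by tauto)]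
        split_ifs <;> norm_num
    rw [sum_add_distrib] at h2
    refine h2.trans (add_le_add le_rfl ?_)
    rw [← sum_filter]
    apply sum_le_sum_of_subset_of_nonneg
    · intro n hn
      rw [mem_filter] at hn
      exact mem_range.mpr hn.2
    · intro _ _ _; norm_num
  have h3 : ∑ p ∈ (range N).filter (fun p => p.Prime ∧ N0 ≤ p), (1 : ℝ) / (2 * p) =
      (1/2) * ∑ p ∈ (range N).filter (fun p => p.Prime ∧ N0 ≤ p), (1 : ℝ) / p := by
    rw [mul_sum]
    apply sum_congr rfl
    intro p _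
    rw [one_div, one_div, mul_inv]
    ring
  rw [h3]
  have h4 := le_abs_self B
  linarith

theorem no_bound {k d n0 : ℕ} {C : ℝ} (hk : 3 ≤ k) (hd : d = k ∨ d = k + 1) (hn0 : 1 ≤ n0) (hC : 0 ≤ C)
    (H : ∀ X n : ℕ, 1 ≤ X → n0 ≤ n → n ≤ d * X ^ k → ((Rep k d n).ncard : ℝ) ≤ C * (X : ℝ) ^ (d - k)) :
    False := by
  classical
  obtain ⟨N0, hN0⟩ := exists_nat_ge ((2 * ((k : ℝ) ^ (k + 1) + 1)) ^ 2)
  obtain ⟨P, hP, hB⟩ := exists_primes N0 (2 + 2 * d * C)
  set W := ∏ p ∈ P, p ^ k with hW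
  have hWpos : 0 < W := by
    rw [hW]
    exact prod_pos (fun p hp => pow_pos (hP p hp).1.pos _)
  have h1 := averaging (by omega) (by omega) hn0 hC H hWpos
  have h2 : (M W k d : ℝ) = ∏ p ∈ P, (M (p ^ k) k d : ℝ) := by
    rw [hW, M_prod P (fun p hp => (hP p hp).1)]
    push_cast
    rfl
  have h3 : (∏ p ∈ P, (1 + 1 / (2 * (p : ℝ)))) * (W : ℝ) ^ (d - 1) ≤ (M W k d : ℝ) := by
    rw [h2, hW]
    push_cast
    rw [← prod_pow, ← prod_mul_distrib]
    apply prod_le_prod
    · intro p _; positivity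
    · intro p hp
      have : Fact p.Prime := ⟨(hP p hp).1⟩
      have h4 := density (p := p) hk hd (hN0.trans (by exact_mod_cast (hP p hp).2))
      rw [pow_mul] at h4
      exact h4
  have hW1 : (0 : ℝ) < (W : ℝ) ^ (d - 1) := by
    have : (0 : ℝ) < W := by exact_mod_cast hWpos
    positivity
  have h5 := le_of_mul_le_mul_right (h3.trans h1) hW1
  linarith

/-- the arithmetic sphere -/
def sphere (k d : ℕ) (r : ℝ) : Set (Fin d → ℤ) := {m | ∑ i, |(m i : ℝ)| ^ k = r ^ k}

lemma sphere_finite {k d : ℕ} (hk : 0 < k) {r : ℝ} (hr : 0 < r) : (sphere k d r).Finite := by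
  apply Set.Finite.subset (Set.Finite.pi' (fun _ : Fin d => Set.finite_Icc (-⌈r⌉) ⌈r⌉))
  intro m hm i
  have hm' : ∑ i, |(m i : ℝ)| ^ k = r ^ k := hm
  have h1 : |(m i : ℝ)| ^ k ≤ r ^ k := by
    rw [← hm']
    exact single_le_sum (f := fun i => |(m i : ℝ)| ^ k) (fun _ _ => by positivity) (mem_univ i)
  have h2 : |(m i : ℝ)| ≤ r := le_of_pow_le_pow_left₀ hk.ne' hr.le h1
  have h3 := Int.le_ceil r
  have h4 := abs_le.mp (h2.trans h3)
  rw [Set.mem_Icc]
  constructor
  · have : (-(⌈r⌉ : ℝ)) ≤ (m i : ℝ) := h4.1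
    exact_mod_cast this
  · exact_mod_cast h4.2

/-- the statement that the number of lattice points has the order `r^(d-k)` in dimension `d` -/
def Holds (k d : ℕ) : Prop :=
  ∃ c C r₀ : ℝ, 0 < c ∧ ∀ r : ℝ, 0 < r → r₀ ≤ r → (sphere k d r).Nonempty →
    c * r ^ ((d : ℝ) - k) ≤ ((sphere k d r).ncard : ℝ) ∧
      ((sphere k d r).ncard : ℝ) ≤ C * r ^ ((d : ℝ) - k)

lemma Rep_le_sphere {k d n : ℕ} (hk : 0 < k) {r : ℝ} (hr : 0 < r) (hrn : r ^ k = n) :
    (Rep k d n).ncard ≤ (sphere k d r).ncard := by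
  apply Set.ncard_le_ncard_of_injOn (fun y i => ((y i : ℕ) : ℤ)) _ _ (sphere_finite hk hr)
  · intro y hy
    have hy' : ∑ i, y i ^ k = n := hy
    show ∑ i, |(((y i : ℕ) : ℤ) : ℝ)| ^ k = r ^ k
    rw [hrn, ← hy']
    push_cast
    apply sum_congr rfl
    intro i _
    rw [Nat.abs_cast]
  · intro y _ y' _ h
    funext i
    have h1 : ((y i : ℕ) : ℤ) = ((y' i : ℕ) : ℤ) := congrFun h i
    exact_mod_cast h1

theorem fails_low {k d : ℕ} (hk : 3 ≤ k) (hd1 : 1 ≤ d) (hd : d ≤ k + 1) : ¬ Holds k d := by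
  rintro ⟨c, C, r₀, hc, h⟩
  rcases lt_or_ge d k with hlt | hge
  · -- d < k
    have h1 : ∀ j : ℕ, 1 ≤ j → r₀ ≤ j → (1 : ℝ) ≤ |C| * (1 / j) := by
      intro j hj hj2
      have hjR : (1 : ℝ) ≤ j := by exact_mod_cast hj
      have hne : (sphere k d j).Nonempty := by
        refine ⟨fun i => if i = ⟨0, hd1⟩ then (j : ℤ) else 0, ?_⟩
        show ∑ i, |(((if i = (⟨0, hd1⟩ : Fin d) then (j : ℤ) else 0 : ℤ)) : ℝ)| ^ k = (j : ℝ) ^ k
        rw [Finset.sum_eq_single (⟨0, hd1⟩ : Fin d)]
        · simp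
        · intro b _ hb
          rw [if_neg hb]
          simp
          omega
        · intro hcon
          exact absurd (mem_univ _) hcon
      have h2 := (h j (by linarith) hj2 hne).2
      have h3 : 1 ≤ (sphere k d j).ncard := by
        exact (Set.ncard_pos (sphere_finite (by omega) (by linarith))).mpr hne
      have h4 : (1 : ℝ) ≤ C * (j : ℝ) ^ ((d : ℝ) - k) := by
        refine le_trans ?_ h2
        exact_mod_cast h3
      have h5 : (j : ℝ) ^ ((d : ℝ) - k) ≤ (j : ℝ) ^ (-1 : ℝ) := by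
        apply Real.rpow_le_rpow_of_exponent_le hjR
        have : (d : ℝ) + 1 ≤ k := by exact_mod_cast hlt
        linarith
      rw [Real.rpow_neg_one] at h5
      have h6 : 0 < (j : ℝ) ^ ((d : ℝ) - k) := by positivity
      calc (1 : ℝ) ≤ C * (j : ℝ) ^ ((d : ℝ) - k) := h4
        _ ≤ |C| * (j : ℝ) ^ ((d : ℝ) - k) := mul_le_mul_of_nonneg_right (le_abs_self C) h6.le
        _ ≤ |C| * (1 / j) := by
            rw [one_div]
            exact mul_le_mul_of_nonneg_left h5 (abs_nonneg C)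
    obtain ⟨j, hj⟩ := exists_nat_ge (|C| + |r₀| + 1)
    have hj1 : (0 : ℝ) ≤ |C| := abs_nonneg C
    have hj2 : (0 : ℝ) ≤ |r₀| := abs_nonneg r₀
    have hj3 := le_abs_self r₀
    have h2 := h1 j (by
      have : (1 : ℝ) ≤ j := by linarith
      exact_mod_cast this) (by linarith)
    have hj0 : (0 : ℝ) < j := by linarith
    rw [mul_one_div, le_div_iff₀ hj0] at h2
    linarith
  · have hd' : d = k ∨ d = k + 1 := by omega
    obtain ⟨n0, hn0⟩ := exists_nat_ge (|r₀| ^ k + 1)
    have hr0nn : 0 ≤ |r₀| ^ k := by positivity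
    apply no_bound (k := k) (d := d) (n0 := n0) (C := |C| * (d : ℝ) ^ (d - k)) hk hd'
    · have : (1 : ℝ) ≤ n0 := by linarith
      exact_mod_cast this
    · positivity
    · intro X n hX hn hn2
      have hXR : (1 : ℝ) ≤ X := by exact_mod_cast hX
      have hn1 : (1 : ℝ) ≤ n := by
        have : (n0 : ℝ) ≤ n := by exact_mod_cast hn
        linarith
      have hk0 : (k : ℝ) ≠ 0 := by
        have : k ≠ 0 := by omega
        exact_mod_cast this
      set r : ℝ := (n : ℝ) ^ (1 / (k : ℝ)) with hr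
      have hr1 : 0 < r := by positivity
      have hrk : r ^ k = n := by
        rw [hr, ← Real.rpow_natCast, ← Real.rpow_mul (by linarith), one_div_mul_cancel hk0, Real.rpow_one]
      have hrr : r₀ ≤ r := by
        have h1 : |r₀| ^ k ≤ r ^ k := by
          rw [hrk]
          have : (n0 : ℝ) ≤ n := by exact_mod_cast hn
          linarith
        exact (le_abs_self r₀).trans (le_of_pow_le_pow_left₀ (by omega) hr1.le h1)
      have hdR : (1 : ℝ) ≤ d := by exact_mod_cast hd1
      have hrX : r ≤ d * X := by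
        apply le_of_pow_le_pow_left₀ (n := k) (by omega) (by positivity)
        rw [hrk, mul_pow]
        have h1 : (n : ℝ) ≤ d * (X : ℝ) ^ k := by exact_mod_cast hn2
        have h2 : (d : ℝ) ≤ (d : ℝ) ^ k := by
          calc (d : ℝ) = d ^ 1 := (pow_one _).symm
            _ ≤ _ := pow_le_pow_right₀ hdR (by omega)
        have h3 : 0 < (X : ℝ) ^ k := by positivity
        nlinarith
      rcases Set.eq_empty_or_nonempty (Rep k d n) with he | hne
      · rw [he, Set.ncard_empty]
        push_cast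
        positivity
      · have hle := Rep_le_sphere (d := d) (by omega : 0 < k) hr1 hrk
        have hne2 : (sphere k d r).Nonempty := by
          rw [← Set.ncard_pos (sphere_finite (by omega) hr1)]
          have : 0 < (Rep k d n).ncard := (Set.ncard_pos (Rep_finite (by omega) d n)).mpr hne
          omega
        have h2 := (h r hr1 hrr hne2).2
        have e : r ^ ((d : ℝ) - k) = r ^ (d - k) := by
          rw [← Nat.cast_sub hge, Real.rpow_natCast]
        rw [e] at h2
        calc ((Rep k d n).ncard : ℝ) ≤ ((sphere k d r).ncard : ℝ) := by exact_mod_cast hle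
          _ ≤ C * r ^ (d - k) := h2
          _ ≤ |C| * r ^ (d - k) := mul_le_mul_of_nonneg_right (le_abs_self C) (by positivity)
          _ ≤ |C| * (d * X) ^ (d - k) := by
              apply mul_le_mul_of_nonneg_left _ (abs_nonneg C)
              exact pow_le_pow_left₀ hr1.le hrX _
          _ = _ := by rw [mul_pow]; ring

end Pool.Agent.TH854.KS
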