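import Mathlib
import Pool.Agent.TH854.KS.K6

/-! Local obstructions. -/

open Finset

namespace Pool.Agent.TH854.KS

lemma axis_mem {k d : ℕ} (hk : 0 < k) (hd : 1 ≤ d) (j : ℕ) : (sphere k d (j : ℝ)).Nonempty := by
  refine ⟨fun i => if i = ⟨0, hd⟩ then (j : ℤ) else 0, ?_⟩
  show ∑ i, |(((if i = (⟨0, hd⟩ : Fin d) then (j : ℤ) else 0 : ℤ)) : ℝ)| ^ k = (j : ℝ) ^ k
  rw [Finset.sum_eq_single (⟨0, hd⟩ : Fin d)]
  · simp
  · intro b _ hb
    rw [if_neg hb]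
    simp
    omega
  · intro hcon
    exact absurd (mem_univ _) hcon

lemma sphere_natAbs {k d : ℕ} {n : ℕ} (m : Fin d → ℤ) :
    m ∈ sphere k d (n : ℝ) ↔ ∑ i, (m i).natAbs ^ k = n ^ k := by
  unfold sphere
  rw [Set.mem_ofPred_eq]
  have h : ∀ i, |(m i : ℝ)| = (((m i).natAbs : ℕ) : ℝ) := by
    intro i
    rw [Nat.cast_natAbs, Int.cast_abs]
  simp_rw [h]
  constructor
  · intro h1; exact_mod_cast h1
  · intro h1; exact_mod_cast h1

theorem primitive_of_holds {k d : ℕ} (hk : 3 ≤ k) (hd : k + 1 ≤ d) (h : Holds k d) {p : ℕ}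
    (hp : p.Prime) (γ : ℕ) : ∃ y : Fin d → ℕ, p ^ γ ∣ ∑ i, y i ^ k ∧ ∃ i, ¬ p ∣ y i := by
  by_contra hcon
  push Not at hcon
  obtain ⟨c, C, r₀, hc, h⟩ := h
  have hp1 : (1 : ℝ) ≤ p := by exact_mod_cast hp.one_lt.le
  have hstep : ∀ j : ℕ, γ ≤ j → (sphere k d ((p ^ (j + 1) : ℕ) : ℝ)).ncard ≤
      (sphere k d ((p ^ j : ℕ) : ℝ)).ncard := by
    intro j hj
    have hdiv : ∀ m ∈ sphere k d ((p ^ (j + 1) : ℕ) : ℝ), ∀ i, (p : ℤ) ∣ m i := by
      intro m hm i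
      rw [sphere_natAbs] at hm
      have h1 : p ^ γ ∣ ∑ i, (m i).natAbs ^ k := by
        rw [hm, ← pow_mul]
        apply pow_dvd_pow
        nlinarith
      have h2 := hcon (fun i => (m i).natAbs) h1 i
      rw [← Int.natCast_dvd_natCast] at h2
      rwa [Int.dvd_natAbs] at h2
    have hfin : (sphere k d ((p ^ j : ℕ) : ℝ)).Finite := by
      apply sphere_finite (by omega)
      exact_mod_cast pow_pos hp.pos j
    apply Set.ncard_le_ncard_of_injOn (fun (m : Fin d → ℤ) (i : Fin d) => m i / (p : ℤ)) _ _ hfin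
    · intro m hm
      have hd2 := hdiv m hm
      rw [sphere_natAbs] at hm
      show (fun i => m i / p) ∈ sphere k d ((p ^ j : ℕ) : ℝ)
      rw [sphere_natAbs]
      have h3 : ∀ i, (m i).natAbs = p * (m i / p).natAbs := by
        intro i
        have := Int.mul_ediv_cancel' (hd2 i)
        conv_lhs => rw [← this]
        rw [Int.natAbs_mul, Int.natAbs_natCast]
      have h4 : ∑ i, (m i).natAbs ^ k = p ^ k * ∑ i, (m i / p).natAbs ^ k := by
        rw [mul_sum]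
        apply sum_congr rfl
        intro i _
        rw [h3 i, mul_pow]
      rw [h4, pow_succ, mul_pow, mul_comm] at hm
      exact Nat.eq_of_mul_eq_mul_right (pow_pos hp.pos k) hm
    · intro m hm m' hm' hmm
      funext i
      have h5 := congrFun hmm i
      simp only at h5
      have h6 := Int.mul_ediv_cancel' (hdiv m hm i)
      have h7 := Int.mul_ediv_cancel' (hdiv m' hm' i)
      rw [← h6, ← h7, h5]
  have hbound : ∀ j : ℕ, γ ≤ j → (sphere k d ((p ^ j : ℕ) : ℝ)).ncard ≤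
      (sphere k d ((p ^ γ : ℕ) : ℝ)).ncard := by
    intro j hj
    induction j, hj using Nat.le_induction with
    | base => exact le_rfl
    | succ j hj ih => exact (hstep j hj).trans ih
  set B := (sphere k d ((p ^ γ : ℕ) : ℝ)).ncard with hB
  obtain ⟨j, hj⟩ := exists_nat_ge (|r₀| + B / c + γ + 1)
  have hBc : 0 ≤ (B : ℝ) / c := by positivity
  have hr0 : 0 ≤ |r₀| := abs_nonneg r₀
  have hγj : γ ≤ j := by
    have : (γ : ℝ) ≤ j := by linarith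
    exact_mod_cast this
  have hpj : (j : ℝ) < ((p ^ j : ℕ) : ℝ) := by
    exact_mod_cast Nat.lt_pow_self hp.one_lt
  have hpos : (0 : ℝ) < ((p ^ j : ℕ) : ℝ) := by
    exact_mod_cast pow_pos hp.pos j
  have h1 := (h ((p ^ j : ℕ) : ℝ) hpos (by linarith [le_abs_self r₀])
    (axis_mem (by omega) (by omega) _)).1
  have h2 : ((p ^ j : ℕ) : ℝ) ≤ ((p ^ j : ℕ) : ℝ) ^ ((d : ℝ) - k) := by
    have h3 : ((p ^ j : ℕ) : ℝ) ^ (1 : ℝ) ≤ ((p ^ j : ℕ) : ℝ) ^ ((d : ℝ) - k) := by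
      apply Real.rpow_le_rpow_of_exponent_le
      · exact_mod_cast Nat.one_le_pow _ _ hp.pos
      · have : (k : ℝ) + 1 ≤ d := by exact_mod_cast hd
        linarith
    rwa [Real.rpow_one] at h3
  have h4 : (((sphere k d ((p ^ j : ℕ) : ℝ)).ncard : ℕ) : ℝ) ≤ B := by exact_mod_cast hbound j hγj
  have h5 : c * ((p ^ j : ℕ) : ℝ) ≤ B := by
    calc c * ((p ^ j : ℕ) : ℝ) ≤ c * ((p ^ j : ℕ) : ℝ) ^ ((d : ℝ) - k) := mul_le_mul_of_nonneg_left h2 hc.le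
      _ ≤ B := h1.trans h4
  have h6 : (B : ℝ) / c < ((p ^ j : ℕ) : ℝ) := by linarith
  rw [div_lt_iff₀ hc] at h6
  linarith

lemma odd_pow_two (y : ℕ) (hy : ¬ 2 ∣ y) (τ : ℕ) (hτ : 1 ≤ τ) :
    (2 ^ (τ + 2) : ℤ) ∣ (y : ℤ) ^ (2 ^ τ) - 1 := by
  induction τ, hτ using Nat.le_induction with
  | base =>
    obtain ⟨z, hz⟩ : ∃ z : ℤ, (y : ℤ) = 2 * z + 1 := ⟨(y : ℤ) / 2, by omega⟩
    rw [hz]
    have h1 : (2 * z + 1) ^ 2 ^ 1 - 1 = 4 * (z * (z + 1)) := by ring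
    rw [h1]
    obtain ⟨w, hw⟩ := Int.even_mul_succ_self z
    rw [hw]
    exact ⟨w, by ring⟩
  | succ τ hτ ih =>
    have h1 : (y : ℤ) ^ (2 ^ (τ + 1)) - 1 = ((y : ℤ) ^ (2 ^ τ) - 1) * ((y : ℤ) ^ (2 ^ τ) + 1) := by
      rw [pow_succ, pow_mul]; ring
    have h2 : (2 : ℤ) ∣ (y : ℤ) ^ (2 ^ τ) + 1 := by
      have h3 : Odd (y : ℤ) := by
        rw [← Int.not_even_iff_odd, Int.even_iff]
        omega
      have h4 : Odd ((y : ℤ) ^ (2 ^ τ)) := h3.pow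
      obtain ⟨w, hw⟩ := h4
      exact ⟨w + 1, by rw [hw]; ring⟩
    rw [h1, show τ + 1 + 2 = (τ + 2) + 1 by ring, pow_succ]
    exact mul_dvd_mul ih h2

lemma two_pow_ge (τ : ℕ) (h : 2 ≤ τ) : τ + 2 ≤ 2 ^ τ := by
  induction τ, h using Nat.le_induction with
  | base => norm_num
  | succ n hn ih => rw [pow_succ]; omega

/-- if `k`-th powers are `0` or `1` modulo `p ^ γ`, then `d ≥ p ^ γ` -/
lemma obstruct {k d p γ : ℕ} (h0 : ∀ y : ℕ, p ∣ y → p ^ γ ∣ y ^ k)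
    (h1 : ∀ y : ℕ, ¬ p ∣ y → ((p ^ γ : ℕ) : ℤ) ∣ (y : ℤ) ^ k - 1)
    (y : Fin d → ℕ) (hy : p ^ γ ∣ ∑ i, y i ^ k) (hi : ∃ i, ¬ p ∣ y i) : p ^ γ ≤ d := by
  classical
  have h2 : ((p ^ γ : ℕ) : ℤ) ∣ (∑ i, (y i : ℤ) ^ k) - ((univ.filter (fun i => ¬ p ∣ y i)).card : ℤ) := by
    have e : ((univ.filter (fun i => ¬ p ∣ y i)).card : ℤ) = ∑ i, (if ¬ p ∣ y i then (1 : ℤ) else 0) := by
      rw [← sum_filter, sum_const, nsmul_eq_mul, mul_one]
    rw [e, ← sum_sub_distrib]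
    apply dvd_sum
    intro i _
    by_cases hpi : p ∣ y i
    · rw [if_neg (by simpa using hpi), sub_zero]
      exact_mod_cast h0 _ hpi
    · rw [if_pos hpi]
      exact h1 _ hpi
  have h3 : ((p ^ γ : ℕ) : ℤ) ∣ (∑ i, (y i : ℤ) ^ k) := by exact_mod_cast hy
  have h4 : ((p ^ γ : ℕ) : ℤ) ∣ ((univ.filter (fun i => ¬ p ∣ y i)).card : ℤ) := by
    have := dvd_sub h3 h2
    simpa using this
  rw [Int.natCast_dvd_natCast] at h4
  have h5 : 0 < (univ.filter (fun i => ¬ p ∣ y i)).card := by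
    rw [card_pos]
    obtain ⟨i, hi⟩ := hi
    exact ⟨i, mem_filter.mpr ⟨mem_univ _, hi⟩⟩
  have h6 := Nat.le_of_dvd h5 h4
  have h7 : (univ.filter (fun i => ¬ p ∣ y i)).card ≤ d := by
    refine (card_le_univ _).trans ?_
    rw [Fintype.card_fin]
  exact h6.trans h7

theorem bound_two {k d : ℕ} (hk : 3 ≤ k) (hd : k + 1 ≤ d) (h : Holds k d) {τ : ℕ} (hτ : 1 ≤ τ)
    (hdvd : 2 ^ τ ∣ k) : 2 ^ (τ + 2) ≤ d := by
  obtain ⟨y, hy, hi⟩ := primitive_of_holds hk hd h Nat.prime_two (τ + 2)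
  have hk2 : τ + 2 ≤ k := by
    have h1 := Nat.le_of_dvd (by omega) hdvd
    rcases Nat.lt_or_ge τ 2 with h2 | h2
    · have : τ = 1 := by omega
      subst this
      obtain ⟨m, rfl⟩ := hdvd
      omega
    · have h3 := two_pow_ge τ h2
      omega
  apply obstruct _ _ y hy hi
  · intro z hz
    exact (pow_dvd_pow 2 hk2).trans (pow_dvd_pow_of_dvd hz k)
  · intro z hz
    obtain ⟨m, rfl⟩ := hdvd
    have h1 := odd_pow_two z hz τ hτ
    push_cast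
    rw [pow_mul]
    refine h1.trans ?_
    have := sub_dvd_pow_sub_pow ((z : ℤ) ^ (2 ^ τ)) 1 m
    rwa [one_pow] at this

theorem bound_odd {k d : ℕ} (hk : 3 ≤ k) (hd : k + 1 ≤ d) (h : Holds k d) {p τ : ℕ} (hp : p.Prime)
    (hdvd : (p - 1) * p ^ τ ∣ k) : p ^ (τ + 1) ≤ d := by
  obtain ⟨y, hy, hi⟩ := primitive_of_holds hk hd h hp (τ + 1)
  have hk2 : τ + 1 ≤ k := by
    have h1 := Nat.le_of_dvd (by omega) hdvd
    have h2 : τ < p ^ τ := Nat.lt_pow_self hp.one_lt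
    have h3 : 1 ≤ p - 1 := by have := hp.two_le; omega
    nlinarith
  apply obstruct _ _ y hy hi
  · intro z hz
    exact (pow_dvd_pow p hk2).trans (pow_dvd_pow_of_dvd hz k)
  · intro z hz
    obtain ⟨m, rfl⟩ := hdvd
    have hcop : Nat.Coprime z (p ^ (τ + 1)) := by
      apply Nat.Coprime.pow_right
      exact ((Nat.Prime.coprime_iff_not_dvd hp).mpr hz).symm
    have h1 := Nat.ModEq.pow_totient hcop
    rw [Nat.totient_prime_pow_succ hp, mul_comm (p ^ τ)] at h1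
    have h2 := (Nat.modEq_iff_dvd.mp h1.symm)
    push_cast at h2
    push_cast
    rw [pow_mul]
    refine h2.trans ?_
    have := sub_dvd_pow_sub_pow ((z : ℤ) ^ ((p - 1) * p ^ τ)) 1 m
    rwa [one_pow] at this

end Pool.Agent.TH854.KS
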