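import Mathlib
import Pool.Agent.TH854.KS.K7

/-! The upper bound in one dimension implies that the sums of `d` `k`-th powers have positive
lower density. -/

open Finset

namespace Pool.Agent.TH854.KS

/-- the upper bound `N_{k,d}(r) ≤ C r^(d-k)` for all large `r` -/
def Upper (k d : ℕ) : Prop :=
  ∃ C r₀ : ℝ, ∀ r : ℝ, 0 < r → r₀ ≤ r → (sphere k d r).Nonempty →
    ((sphere k d r).ncard : ℝ) ≤ C * r ^ ((d : ℝ) - k)

lemma le_of_upper {k d : ℕ} (hk : 1 ≤ k) (hd1 : 1 ≤ d) (hU : Upper k d) : k ≤ d := by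
  obtain ⟨C, r₀, h⟩ := hU
  by_contra hlt
  push Not at hlt
  have h1 : ∀ j : ℕ, 1 ≤ j → r₀ ≤ j → (1 : ℝ) ≤ |C| * (1 / j) := by
    intro j hj hj2
    have hjR : (1 : ℝ) ≤ j := by exact_mod_cast hj
    have hne : (sphere k d (j : ℝ)).Nonempty := axis_mem (by omega) hd1 j
    have h2 := h j (by linarith) hj2 hne
    have h3 : 1 ≤ (sphere k d (j : ℝ)).ncard := by
      exact (Set.ncard_pos (sphere_finite (by omega) (by linarith))).mpr hne
    have h4 : (1 : ℝ) ≤ C * (j : ℝ) ^ ((d : ℝ) - k) := by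
      refine le_trans ?_ h2
      exact_mod_cast h3
    have h5 : (j : ℝ) ^ ((d : ℝ) - k) ≤ (j : ℝ) ^ (-1 : ℝ) := by
      apply Real.rpow_le_rpow_of_exponent_le hjR
      have : (d : ℝ) + 1 ≤ k := by exact_mod_cast hlt
      linarith
    rw [Real.rpow_neg_one] at h5
    have h6 : 0 < (j : ℝ) ^ ((d : ℝ) - k) := by positivity
    calc (1 : ℝ) ≤ C * (j : ℝ) ^ ((d : ℝ) - k) := h4
      _ ≤ |C| * (j : ℝ) ^ ((d : ℝ) - k) := mul_le_mul_of_nonneg_right (le_abs_self C) h6.le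
      _ ≤ |C| * (1 / j) := by
          rw [one_div]
          exact mul_le_mul_of_nonneg_left h5 (abs_nonneg C)
  obtain ⟨j, hj⟩ := exists_nat_ge (|C| + |r₀| + 1)
  have hj1 : (0 : ℝ) ≤ |C| := abs_nonneg C
  have hj2 : (0 : ℝ) ≤ |r₀| := abs_nonneg r₀
  have hj3 := le_abs_self r₀
  have h2 := h1 j (by
    have : (1 : ℝ) ≤ j := by linarith
    exact_mod_cast this) (by linarith)
  have hj0 : (0 : ℝ) < j := by linarith
  rw [mul_one_div, le_div_iff₀ hj0] at h2
  linarith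

/-- the upper bound in natural numbers -/
lemma nat_of_upper {k d : ℕ} (hk : 1 ≤ k) (hd1 : 1 ≤ d) (hU : Upper k d) :
    ∃ (C : ℝ) (n0 : ℕ), 0 < C ∧ 1 ≤ n0 ∧ ∀ X n : ℕ, 1 ≤ X → n0 ≤ n → n ≤ d * X ^ k →
      ((Rep k d n).ncard : ℝ) ≤ C * (X : ℝ) ^ (d - k) := by
  have hge := le_of_upper hk hd1 hU
  obtain ⟨C, r₀, h⟩ := hU
  obtain ⟨n0, hn0⟩ := exists_nat_ge (|r₀| ^ k + 1)
  have hr0nn : 0 ≤ |r₀| ^ k := by positivity
  refine ⟨|C| * (d : ℝ) ^ (d - k) + 1, n0, by positivity, ?_, ?_⟩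
  · have : (1 : ℝ) ≤ n0 := by linarith
    exact_mod_cast this
  · intro X n hX hn hn2
    have hXR : (1 : ℝ) ≤ X := by exact_mod_cast hX
    have hn1 : (1 : ℝ) ≤ n := by
      have : (n0 : ℝ) ≤ n := by exact_mod_cast hn
      linarith
    have hk0 : (k : ℝ) ≠ 0 := by
      have : k ≠ 0 := by omega
      exact_mod_cast this
    set r : ℝ := (n : ℝ) ^ (1 / (k : ℝ)) with hr
    have hr1 : 0 < r := by positivity
    have hrk : r ^ k = n := by
      rw [hr, ← Real.rpow_natCast, ← Real.rpow_mul (by linarith), one_div_mul_cancel hk0, Real.rpow_one]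
    have hrr : r₀ ≤ r := by
      have h1 : |r₀| ^ k ≤ r ^ k := by
        rw [hrk]
        have : (n0 : ℝ) ≤ n := by exact_mod_cast hn
        linarith
      exact (le_abs_self r₀).trans (le_of_pow_le_pow_left₀ (by omega) hr1.le h1)
    have hdR : (1 : ℝ) ≤ d := by exact_mod_cast hd1
    have hrX : r ≤ d * X := by
      apply le_of_pow_le_pow_left₀ (n := k) (by omega) (by positivity)
      rw [hrk, mul_pow]
      have h1 : (n : ℝ) ≤ d * (X : ℝ) ^ k := by exact_mod_cast hn2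
      have h2 : (d : ℝ) ≤ (d : ℝ) ^ k := by
        calc (d : ℝ) = d ^ 1 := (pow_one _).symm
          _ ≤ _ := pow_le_pow_right₀ hdR (by omega)
      have h3 : 0 < (X : ℝ) ^ k := by positivity
      nlinarith
    rcases Set.eq_empty_or_nonempty (Rep k d n) with he | hne
    · rw [he, Set.ncard_empty]
      push_cast
      positivity
    · have hle := Rep_le_sphere (d := d) (by omega : 0 < k) hr1 hrk
      have hne2 : (sphere k d r).Nonempty := by
        rw [← Set.ncard_pos (sphere_finite (by omega) hr1)]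
        have : 0 < (Rep k d n).ncard := (Set.ncard_pos (Rep_finite (by omega) d n)).mpr hne
        omega
      have h2 := h r hr1 hrr hne2
      have e : r ^ ((d : ℝ) - k) = r ^ (d - k) := by
        rw [← Nat.cast_sub hge, Real.rpow_natCast]
      rw [e] at h2
      have hX0 : (0 : ℝ) ≤ (X : ℝ) ^ (d - k) := by positivity
      calc ((Rep k d n).ncard : ℝ) ≤ ((sphere k d r).ncard : ℝ) := by exact_mod_cast hle
        _ ≤ C * r ^ (d - k) := h2
        _ ≤ |C| * r ^ (d - k) := mul_le_mul_of_nonneg_right (le_abs_self C) (by positivity)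
        _ ≤ |C| * (d * X) ^ (d - k) := by
            apply mul_le_mul_of_nonneg_left _ (abs_nonneg C)
            exact pow_le_pow_left₀ hr1.le hrX _
        _ = |C| * (d : ℝ) ^ (d - k) * (X : ℝ) ^ (d - k) := by rw [mul_pow]; ring
        _ ≤ (|C| * (d : ℝ) ^ (d - k) + 1) * (X : ℝ) ^ (d - k) := by nlinarith

/-- counting in the box -/
lemma box_count {k d n0 N X : ℕ} {C : ℝ} (hk : 1 ≤ k) (hd1 : 1 ≤ d) (hC : 0 < C) (hX : 1 ≤ X)
    (hXN : d * X ^ k ≤ N) (hN : N ≤ d * (2 * X) ^ k)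
    (H : ∀ X n : ℕ, 1 ≤ X → n0 ≤ n → n ≤ d * X ^ k →
      ((Rep k d n).ncard : ℝ) ≤ C * (X : ℝ) ^ (d - k)) (S : Finset ℕ)
    (hS : ∀ n < N, (∃ y : Fin d → ℕ, n = ∑ i, y i ^ k) → n ∈ S) :
    (X : ℝ) ^ d ≤ (n0 : ℝ) ^ d + (S.card : ℝ) * (C * ((2 * X : ℕ) : ℝ) ^ (d - k)) := by
  classical
  set T := (range N).filter (fun n => ∃ y : Fin d → ℕ, n = ∑ i, y i ^ k) with hT
  have hTS : T ⊆ S := by
    intro n hn
    rw [hT, mem_filter, mem_range] at hn
    exact hS n hn.1 hn.2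
  have hmaps : ∀ y ∈ Box d X, ∑ i, y i ^ k ∈ T := by
    intro y hy
    rw [mem_Box] at hy
    rw [hT, mem_filter, mem_range]
    refine ⟨?_, y, rfl⟩
    have : ∑ i, y i ^ k < ∑ _i : Fin d, X ^ k := by
      apply sum_lt_sum_of_nonempty
      · exact ⟨⟨0, hd1⟩, mem_univ _⟩
      · intro i _
        exact Nat.pow_lt_pow_left (hy i) (by omega)
    rw [sum_const, card_univ, Fintype.card_fin, smul_eq_mul] at this
    omega
  have h0 : (Box d X).card = X ^ d := by simp [Box]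
  have h1 : X ^ d ≤ (Box d X).card := h0.ge
  rw [card_eq_sum_card_fiberwise hmaps, ← sum_filter_add_sum_filter_not T (fun n => n < n0)] at h1
  have h2 : ∑ n ∈ T.filter (fun n => n < n0), ((Box d X).filter (fun y => ∑ i, y i ^ k = n)).card
      ≤ n0 ^ d := by
    have e : n0 ^ d = (Box d n0).card := by
      simp [Box]
    rw [e, ← card_biUnion]
    · apply card_le_card
      intro y hy
      rw [mem_biUnion] at hy
      obtain ⟨n, hn, hy⟩ := hy
      rw [mem_filter] at hn hy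
      rw [mem_Box]
      intro i
      have h3 : y i ^ k ≤ n := by
        rw [← hy.2]
        exact single_le_sum (f := fun i => y i ^ k) (fun _ _ => Nat.zero_le _) (mem_univ i)
      exact lt_of_le_of_lt ((Nat.le_self_pow (by omega) (y i)).trans h3) hn.2
    · intro a _ b _ hab
      rw [Function.onFun, disjoint_left]
      intro y hy1 hy2
      rw [mem_filter] at hy1 hy2
      exact hab (hy1.2.symm.trans hy2.2)
  have h3 : (((∑ n ∈ T.filter (fun n => ¬ n < n0),
      ((Box d X).filter (fun y => ∑ i, y i ^ k = n)).card : ℕ)) : ℝ) ≤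
      (S.card : ℝ) * (C * ((2 * X : ℕ) : ℝ) ^ (d - k)) := by
    push_cast
    calc ∑ n ∈ T.filter (fun n => ¬ n < n0), (((Box d X).filter (fun y => ∑ i, y i ^ k = n)).card : ℝ)
        ≤ ∑ _n ∈ T.filter (fun n => ¬ n < n0), C * ((2 * X : ℕ) : ℝ) ^ (d - k) := by
          apply sum_le_sum
          intro n hn
          rw [mem_filter, hT, mem_filter, mem_range] at hn
          refine le_trans ?_ (H (2 * X) n (by omega) (by omega) (by omega))
          have h4 : ((Box d X).filter (fun y => ∑ i, y i ^ k = n)).card ≤ (Rep k d n).ncard := by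
            rw [← Set.ncard_coe_finset]
            apply Set.ncard_le_ncard _ (Rep_finite (by omega) d n)
            intro y hy
            rw [mem_coe, mem_filter] at hy
            exact hy.2
          exact_mod_cast h4
      _ = ((T.filter (fun n => ¬ n < n0)).card : ℝ) * (C * ((2 * X : ℕ) : ℝ) ^ (d - k)) := by
          rw [sum_const, nsmul_eq_mul]
      _ ≤ (S.card : ℝ) * (C * ((2 * X : ℕ) : ℝ) ^ (d - k)) := by
          apply mul_le_mul_of_nonneg_right _ (by positivity)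
          exact_mod_cast card_le_card ((filter_subset _ _).trans hTS)
      _ = _ := by push_cast; ring
  have h10 : ((X ^ d : ℕ) : ℝ) ≤ ((n0 ^ d : ℕ) : ℝ) +
      (S.card : ℝ) * (C * ((2 * X : ℕ) : ℝ) ^ (d - k)) := by
    refine (Nat.cast_le.mpr h1).trans ?_
    rw [Nat.cast_add]
    exact add_le_add (by exact_mod_cast h2) h3
  push_cast at h10 ⊢
  exact h10

/-- choice of the side of the box -/
lemma exists_side {k d N : ℕ} (hk : 1 ≤ k) (hd1 : 1 ≤ d) (hN : d ≤ N) :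
    ∃ X : ℕ, 1 ≤ X ∧ d * X ^ k ≤ N ∧ N < d * (X + 1) ^ k := by
  classical
  have hex : ∃ X : ℕ, N < d * (X + 1) ^ k := by
    refine ⟨N, ?_⟩
    calc N < N + 1 := Nat.lt_succ_self _
      _ ≤ (N + 1) ^ k := Nat.le_self_pow (by omega) _
      _ ≤ d * (N + 1) ^ k := Nat.le_mul_of_pos_left _ hd1
  refine ⟨Nat.find hex, ?_, ?_, Nat.find_spec hex⟩
  · rw [Nat.one_le_iff_ne_zero]
    intro h0
    have h := Nat.find_spec hex
    rw [h0] at h
    simp at h
    omega
  · rcases Nat.eq_zero_or_pos (Nat.find hex) with h0 | hpos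
    · rw [h0, zero_pow (by omega)]
      omega
    · have h := Nat.find_min hex (m := Nat.find hex - 1) (by omega)
      rw [Nat.sub_add_cancel hpos] at h
      omega

/-- positive lower density -/
theorem density_of_upper {k d : ℕ} (hk : 1 ≤ k) (hd1 : 1 ≤ d) (hU : Upper k d) :
    ∃ δ : ℝ, 0 < δ ∧ ∃ N₀ : ℕ, ∀ N : ℕ, N₀ ≤ N → ∀ S : Finset ℕ,
      (∀ n < N, (∃ y : Fin d → ℕ, n = ∑ i, y i ^ k) → n ∈ S) → δ * N ≤ S.card := by
  have hkd := le_of_upper hk hd1 hU
  obtain ⟨C, n0, hC, hn0, H⟩ := nat_of_upper hk hd1 hU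
  refine ⟨1 / (d * C * 2 ^ (d + 1)), by positivity, d * (2 * n0) ^ k + d, ?_⟩
  intro N hN S hS
  obtain ⟨X, hX1, hX2, hX3⟩ := exists_side hk hd1 (by omega : d ≤ N)
  have hX4 : N ≤ d * (2 * X) ^ k := by
    refine hX3.le.trans (Nat.mul_le_mul_left _ (Nat.pow_le_pow_left (by omega) _))
  have h1 := box_count hk hd1 hC hX1 hX2 hX4 H S hS
  have hXn : 2 * n0 ≤ X := by
    by_contra hcon
    push Not at hcon
    have h2 : d * (X + 1) ^ k ≤ d * (2 * n0) ^ k :=
      Nat.mul_le_mul_left _ (Nat.pow_le_pow_left (by omega) _)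
    omega
  have hX0 : (0 : ℝ) < X := by exact_mod_cast (by omega : 0 < X)
  have h2 : 2 * (n0 : ℝ) ^ d ≤ (X : ℝ) ^ d := by
    calc 2 * (n0 : ℝ) ^ d ≤ 2 ^ d * (n0 : ℝ) ^ d := by
          apply mul_le_mul_of_nonneg_right _ (by positivity)
          calc (2 : ℝ) = 2 ^ 1 := (pow_one _).symm
            _ ≤ 2 ^ d := pow_le_pow_right₀ (by norm_num) hd1
      _ = (2 * (n0 : ℝ)) ^ d := by rw [mul_pow]
      _ ≤ (X : ℝ) ^ d := by
          apply pow_le_pow_left₀ (by positivity)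
          exact_mod_cast hXn
  have h3 : (X : ℝ) ^ d ≤ 2 * ((S.card : ℝ) * (C * ((2 * X : ℕ) : ℝ) ^ (d - k))) := by linarith
  have h4 : (X : ℝ) ^ d = (X : ℝ) ^ k * (X : ℝ) ^ (d - k) := by
    rw [← pow_add]; congr 1; omega
  have h5 : (((2 * X : ℕ)) : ℝ) ^ (d - k) = 2 ^ (d - k) * (X : ℝ) ^ (d - k) := by
    push_cast; rw [mul_pow]
  rw [h4, h5] at h3
  have h6 : (0 : ℝ) < (X : ℝ) ^ (d - k) := by positivity
  have h7 : (X : ℝ) ^ k ≤ 2 * (S.card * (C * 2 ^ (d - k))) := by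
    have : (X : ℝ) ^ k * (X : ℝ) ^ (d - k) ≤ 2 * (S.card * (C * 2 ^ (d - k))) * (X : ℝ) ^ (d - k) := by
      calc _ ≤ _ := h3
        _ = _ := by ring
    exact le_of_mul_le_mul_right this h6
  have h8 : (N : ℝ) ≤ d * (2 ^ k * (X : ℝ) ^ k) := by
    have : (N : ℝ) ≤ ((d * (2 * X) ^ k : ℕ) : ℝ) := by exact_mod_cast hX4
    push_cast at this
    rw [mul_pow] at this
    exact this
  have hdR : (0 : ℝ) < d := by exact_mod_cast hd1
  rw [one_div, inv_mul_le_iff₀ (by positivity)]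
  have h9 : (2 : ℝ) ^ (d + 1) = 2 * (2 ^ k * 2 ^ (d - k)) := by
    rw [← pow_add, ← pow_succ']; congr 1; omega
  calc (N : ℝ) ≤ d * (2 ^ k * (X : ℝ) ^ k) := h8
    _ ≤ d * (2 ^ k * (2 * (S.card * (C * 2 ^ (d - k))))) := by gcongr
    _ = d * C * 2 ^ (d + 1) * S.card := by rw [h9]; ring

end Pool.Agent.TH854.KS
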