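import Pool.Agent.TH854.KS.L1
import Pool.Agent.TH940.WD.W

/-! Almost periodicity of the number of representations. -/

set_option autoImplicit false

open Finset

namespace Pool.Agent.TH854.KS

open Pool.Agent.Helper602.MK (ee)
open Pool.Agent.Helper602.MK.N_J5b (normsq_sum norm_ee)
open Pool.Agent.H373R2.NB (sum_chi chi_conj norm_chi)
open Pool.Agent.TH940.WD (chi_ee lin_close weyl_k)

section
variable {M : ℕ} [NeZero M] {ι : Type*}

/-- number of solutions of `w = s z + s y + p x` in `ℤ/M` -/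
noncomputable def T (E : Finset ι) (s : ι → ℕ) (X : ℕ) (p : ℕ → ℕ) (w : ZMod M) : ℝ :=
  ∑ z ∈ E, ∑ y ∈ E, ∑ x ∈ range X,
    (if w = (s z : ZMod M) + (s y : ZMod M) + (p x : ZMod M) then (1 : ℝ) else 0)

lemma T_expand (E : Finset ι) (s : ι → ℕ) (X : ℕ) (p : ℕ → ℕ) (w : ZMod M) :
    (M : ℂ) * ((T E s X p w : ℝ) : ℂ) =
    ∑ ξ : ZMod M, (∑ z ∈ E, (ZMod.stdAddChar (ξ * (s z : ZMod M)) : ℂ)) *
      ((∑ y ∈ E, (ZMod.stdAddChar (ξ * (s y : ZMod M)) : ℂ)) *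
      ((∑ x ∈ range X, (ZMod.stdAddChar (ξ * (p x : ZMod M)) : ℂ)) *
        (ZMod.stdAddChar (ξ * (-w)) : ℂ))) := by
  symm
  have h1 : ∀ ξ : ZMod M, (∑ z ∈ E, (ZMod.stdAddChar (ξ * (s z : ZMod M)) : ℂ)) *
      ((∑ y ∈ E, (ZMod.stdAddChar (ξ * (s y : ZMod M)) : ℂ)) *
      ((∑ x ∈ range X, (ZMod.stdAddChar (ξ * (p x : ZMod M)) : ℂ)) *
        (ZMod.stdAddChar (ξ * (-w)) : ℂ))) =
      ∑ z ∈ E, ∑ y ∈ E, ∑ x ∈ range X,
        (ZMod.stdAddChar (ξ * ((s z : ZMod M) + (s y : ZMod M) + (p x : ZMod M) - w)) : ℂ) := by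
    intro ξ
    rw [sum_mul]
    apply sum_congr rfl; intro z _
    rw [sum_mul, mul_sum]
    apply sum_congr rfl; intro y _
    rw [sum_mul, mul_sum, mul_sum]
    apply sum_congr rfl; intro x _
    rw [← AddChar.map_add_eq_mul, ← AddChar.map_add_eq_mul, ← AddChar.map_add_eq_mul]
    congr 1
    ring
  rw [sum_congr rfl fun ξ _ => h1 ξ, sum_comm]
  unfold T
  push_cast
  rw [mul_sum]
  apply sum_congr rfl; intro z _
  rw [sum_comm, mul_sum]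
  apply sum_congr rfl; intro y _
  rw [sum_comm, mul_sum]
  apply sum_congr rfl; intro x _
  rw [sum_chi]
  by_cases h : w = (s z : ZMod M) + (s y : ZMod M) + (p x : ZMod M)
  · rw [if_pos h, if_pos (by rw [h]; ring)]
    simp
  · rw [if_neg h, if_neg (fun h3 => h (by linear_combination -h3))]
    simp

lemma pars_pairs (E : Finset ι) (s : ι → ℕ) :
    ∑ ξ : ZMod M, ‖∑ z ∈ E, (ZMod.stdAddChar (ξ * (s z : ZMod M)) : ℂ)‖ ^ 2 =
      M * (∑ z ∈ E, ∑ y ∈ E, if (s z : ZMod M) = (s y : ZMod M) then (1 : ℝ) else 0) := by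
  have h1 : ∀ ξ : ZMod M, ((‖∑ z ∈ E, (ZMod.stdAddChar (ξ * (s z : ZMod M)) : ℂ)‖ ^ 2 : ℝ) : ℂ) =
      ∑ z ∈ E, ∑ y ∈ E, (ZMod.stdAddChar (ξ * ((s z : ZMod M) - (s y : ZMod M))) : ℂ) := by
    intro ξ
    rw [normsq_sum]
    apply sum_congr rfl; intro e _
    apply sum_congr rfl; intro e' _
    rw [chi_conj, ← AddChar.map_add_eq_mul]
    congr 1
    ring
  have h2 : ((∑ ξ : ZMod M, ‖∑ z ∈ E, (ZMod.stdAddChar (ξ * (s z : ZMod M)) : ℂ)‖ ^ 2 : ℝ) : ℂ) =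
      ((M * (∑ z ∈ E, ∑ y ∈ E, if (s z : ZMod M) = (s y : ZMod M) then (1 : ℝ) else 0) : ℝ) : ℂ) := by
    rw [Complex.ofReal_sum, sum_congr rfl fun ξ _ => h1 ξ, sum_comm]
    push_cast
    rw [mul_sum]
    apply sum_congr rfl; intro z _
    rw [sum_comm, mul_sum]
    apply sum_congr rfl; intro y _
    rw [sum_chi]
    by_cases h : (s z : ZMod M) = (s y : ZMod M)
    · rw [if_pos h, if_pos (by rw [h, sub_self])]
      simp
    · rw [if_neg h, if_neg (fun h3 => h (sub_eq_zero.1 h3))]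
      simp
  exact_mod_cast h2

/-- almost periodicity -/
theorem ap (E : Finset ι) (s : ι → ℕ) (X L : ℕ) (p q : ℕ → ℕ) (w : ZMod M)
    (σ : ℝ) (hσ : ∀ ξ : ZMod M, ‖∑ x ∈ range X, (ZMod.stdAddChar (ξ * (p x : ZMod M)) : ℂ)‖ *
      ‖(L : ℂ) - ∑ l ∈ range L, (ZMod.stdAddChar (ξ * (q l : ZMod M)) : ℂ)‖ ≤ σ) :
    |L * T E s X p w - ∑ l ∈ range L, T E s X p (w - (q l : ZMod M))| ≤
      σ * ∑ z ∈ E, ∑ y ∈ E, (if (s z : ZMod M) = (s y : ZMod M) then (1 : ℝ) else 0) := by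
  have hM : (0 : ℝ) < M := by exact_mod_cast Nat.pos_of_ne_zero (NeZero.ne M)
  have h4 : (M : ℂ) * ((L * T E s X p w - ∑ l ∈ range L, T E s X p (w - (q l : ZMod M)) : ℝ) : ℂ) =
      ∑ ξ : ZMod M, (∑ z ∈ E, (ZMod.stdAddChar (ξ * (s z : ZMod M)) : ℂ)) *
      ((∑ y ∈ E, (ZMod.stdAddChar (ξ * (s y : ZMod M)) : ℂ)) *
      ((∑ x ∈ range X, (ZMod.stdAddChar (ξ * (p x : ZMod M)) : ℂ)) *
      (((L : ℂ) - ∑ l ∈ range L, (ZMod.stdAddChar (ξ * (q l : ZMod M)) : ℂ)) *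
        (ZMod.stdAddChar (ξ * (-w)) : ℂ)))) := by
    have h5 : (M : ℂ) * ((L * T E s X p w - ∑ l ∈ range L, T E s X p (w - (q l : ZMod M)) : ℝ) : ℂ) =
        L * ((M : ℂ) * ((T E s X p w : ℝ) : ℂ)) -
          ∑ l ∈ range L, (M : ℂ) * ((T E s X p (w - (q l : ZMod M)) : ℝ) : ℂ) := by
      push_cast
      rw [← mul_sum]
      ring
    rw [h5, T_expand, sum_congr rfl fun l _ => T_expand E s X p (w - (q l : ZMod M)), sum_comm,
      mul_sum, ← sum_sub_distrib]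
    apply sum_congr rfl
    intro ξ _
    have h6 : ∀ l ∈ range L, (∑ z ∈ E, (ZMod.stdAddChar (ξ * (s z : ZMod M)) : ℂ)) *
      ((∑ y ∈ E, (ZMod.stdAddChar (ξ * (s y : ZMod M)) : ℂ)) *
      ((∑ x ∈ range X, (ZMod.stdAddChar (ξ * (p x : ZMod M)) : ℂ)) *
        (ZMod.stdAddChar (ξ * (-(w - (q l : ZMod M)))) : ℂ))) =
      (∑ z ∈ E, (ZMod.stdAddChar (ξ * (s z : ZMod M)) : ℂ)) *
      ((∑ y ∈ E, (ZMod.stdAddChar (ξ * (s y : ZMod M)) : ℂ)) *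
      ((∑ x ∈ range X, (ZMod.stdAddChar (ξ * (p x : ZMod M)) : ℂ)) *
        (ZMod.stdAddChar (ξ * (-w)) : ℂ))) * (ZMod.stdAddChar (ξ * (q l : ZMod M)) : ℂ) := by
      intro l _
      have h7 : (ZMod.stdAddChar (ξ * (-(w - (q l : ZMod M)))) : ℂ) =
          ZMod.stdAddChar (ξ * (-w)) * ZMod.stdAddChar (ξ * (q l : ZMod M)) := by
        rw [← AddChar.map_add_eq_mul]
        congr 1
        ring
      rw [h7]
      ring
    rw [sum_congr rfl h6, ← mul_sum]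
    ring
  have h5 : ‖(M : ℂ) * ((L * T E s X p w - ∑ l ∈ range L, T E s X p (w - (q l : ZMod M)) : ℝ) : ℂ)‖ ≤
      ∑ ξ : ZMod M, σ * ‖∑ z ∈ E, (ZMod.stdAddChar (ξ * (s z : ZMod M)) : ℂ)‖ ^ 2 := by
    rw [h4]
    refine (norm_sum_le _ _).trans (sum_le_sum fun ξ _ => ?_)
    rw [norm_mul, norm_mul, norm_mul, norm_mul, norm_chi, mul_one]
    have h6 := hσ ξ
    set y := ‖∑ z ∈ E, (ZMod.stdAddChar (ξ * (s z : ZMod M)) : ℂ)‖
    have hy : 0 ≤ y := norm_nonneg _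
    calc _ = (‖∑ x ∈ range X, (ZMod.stdAddChar (ξ * (p x : ZMod M)) : ℂ)‖ *
      ‖(L : ℂ) - ∑ l ∈ range L, (ZMod.stdAddChar (ξ * (q l : ZMod M)) : ℂ)‖) * y ^ 2 := by ring
      _ ≤ σ * y ^ 2 := mul_le_mul_of_nonneg_right h6 (by positivity)
  rw [← mul_sum, pars_pairs, norm_mul, Complex.norm_natCast, Complex.norm_real, Real.norm_eq_abs] at h5
  refine le_of_mul_le_mul_left (h5.trans (le_of_eq ?_)) hM
  ring

end

/-- the exponential sum condition -/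
lemma sigma_bound (k : ℕ) (hk : 1 ≤ k) (u : ℝ) (hu : 1 ≤ u) : ∃ Q C : ℕ, 1 ≤ Q ∧ Q ≤ C ∧
    ∀ (X M : ℕ) [NeZero M], 1 ≤ X → ∀ L : ℕ, C * L ≤ X ^ k → ∀ ξ : ZMod M,
      ‖∑ x ∈ range X, (ZMod.stdAddChar (ξ * ((x ^ k : ℕ) : ZMod M)) : ℂ)‖ *
      ‖(L : ℂ) - ∑ l ∈ range L, (ZMod.stdAddChar (ξ * ((Q * l : ℕ) : ZMod M)) : ℂ)‖ ≤
        2 * X * L / u := by
  have hu0 : 0 < u := by linarith
  obtain ⟨Q, hQ1, B, hB1, hW⟩ := weyl_k k hk u hu
  have hpi := Real.pi_pos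
  refine ⟨Q, Q + ⌈2 * Real.pi * B * u⌉₊, hQ1, by omega, ?_⟩
  set C : ℕ := Q + ⌈2 * Real.pi * B * u⌉₊ with hC
  have hC1 : 1 ≤ C := by omega
  have hCB : 2 * Real.pi * B * u ≤ C := by
    rw [hC]
    push_cast
    have h1 := Nat.le_ceil (2 * Real.pi * B * u)
    have h2 : (0 : ℝ) ≤ Q := Nat.cast_nonneg _
    linarith
  intro X M _ hX L hCL ξ
  have hX0 : (0 : ℝ) < X := by exact_mod_cast hX
  have hL0 : (0 : ℝ) ≤ L := Nat.cast_nonneg _
  have e1 : ∀ n : ℕ, (ZMod.stdAddChar (ξ * (n : ZMod M)) : ℂ) =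
      ee ((ξ.val : ℝ) / M * n) := fun n => chi_ee ξ n
  set θ : ℝ := (ξ.val : ℝ) / M with hθ
  have e2 : ∑ x ∈ range X, (ZMod.stdAddChar (ξ * ((x ^ k : ℕ) : ZMod M)) : ℂ) =
      ∑ x ∈ range X, ee (θ * ((x ^ k : ℕ) : ℝ)) := sum_congr rfl fun x _ => e1 _
  have e3 : ∑ l ∈ range L, (ZMod.stdAddChar (ξ * ((Q * l : ℕ) : ZMod M)) : ℂ) =
      ∑ l ∈ range L, ee ((l : ℝ) * (Q * θ)) := by
    apply sum_congr rfl
    intro l _
    rw [e1]
    congr 1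
    push_cast
    ring
  rw [e2, e3]
  set S := ‖∑ x ∈ range X, ee (θ * ((x ^ k : ℕ) : ℝ))‖ with hS
  have hSX : S ≤ X := by
    rw [hS]
    refine (norm_sum_le _ _).trans (le_of_eq ?_)
    rw [sum_congr rfl fun x _ => norm_ee _, sum_const, card_range, nsmul_eq_mul, mul_one]
  have hS0 : 0 ≤ S := norm_nonneg _
  rcases le_or_gt (X : ℝ) (u * S) with h | h
  · obtain ⟨a, ha⟩ := hW X (by omega) θ h
    have h1 := lin_close L (Q * θ) a
    have h2 : 2 * Real.pi * (L * (L * |Q * θ - a|)) ≤ L / u := by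
      have h3 : (L : ℝ) * C ≤ (X : ℝ) ^ k := by
        have : L * C ≤ X ^ k := by rw [mul_comm]; exact hCL
        exact_mod_cast this
      have h4 : (L : ℝ) * |Q * θ - a| ≤ L * (B / (X : ℝ) ^ k) :=
        mul_le_mul_of_nonneg_left ha hL0
      have h5 : 2 * Real.pi * ((L : ℝ) * (B / (X : ℝ) ^ k)) ≤ 1 / u := by
        rw [le_div_iff₀ hu0]
        have h6 : 2 * Real.pi * ((L : ℝ) * (B / (X : ℝ) ^ k)) * u =
            (L : ℝ) * (2 * Real.pi * B * u) / (X : ℝ) ^ k := by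
          field_simp
        rw [h6, div_le_one (by positivity)]
        exact (mul_le_mul_of_nonneg_left hCB hL0).trans h3
      calc 2 * Real.pi * (L * (L * |Q * θ - a|)) = L * (2 * Real.pi * (L * |Q * θ - a|)) := by ring
        _ ≤ L * (2 * Real.pi * ((L : ℝ) * (B / (X : ℝ) ^ k))) := by gcongr
        _ ≤ L * (1 / u) := mul_le_mul_of_nonneg_left h5 hL0
        _ = L / u := by ring
    calc S * ‖(L : ℂ) - ∑ l ∈ range L, ee ((l : ℝ) * (Q * θ))‖ ≤ X * (L / u) :=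
          mul_le_mul hSX (h1.trans h2) (norm_nonneg _) hX0.le
      _ ≤ 2 * X * L / u := by
          have : (0 : ℝ) ≤ X * (L / u) := by positivity
          have e : 2 * (X : ℝ) * L / u = 2 * (X * (L / u)) := by ring
          linarith
  · have h1 : S ≤ X / u := by
      rw [le_div_iff₀ hu0]
      linarith
    have h2 : ‖(L : ℂ) - ∑ l ∈ range L, ee ((l : ℝ) * (Q * θ))‖ ≤ 2 * L := by
      refine (norm_sub_le _ _).trans ?_
      rw [Complex.norm_natCast]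
      have h3 : ‖∑ l ∈ range L, ee ((l : ℝ) * (Q * θ))‖ ≤ L := by
        refine (norm_sum_le _ _).trans (le_of_eq ?_)
        rw [sum_congr rfl fun x _ => norm_ee _, sum_const, card_range, nsmul_eq_mul, mul_one]
      linarith
    calc S * ‖(L : ℂ) - ∑ l ∈ range L, ee ((l : ℝ) * (Q * θ))‖ ≤ X / u * (2 * L) :=
          mul_le_mul h1 h2 (norm_nonneg _) (by positivity)
      _ = 2 * X * L / u := by ring

end Pool.Agent.TH854.KS
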