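import Pool.Agent.TH854.KS.L3

/-! A lower bound on a long progression. -/

set_option autoImplicit false

open Finset

namespace Pool.Agent.TH854.KS

/-- the upper bound for all natural numbers -/
lemma upper_all {k d : ℕ} (hk : 1 ≤ k) (hd1 : 1 ≤ d) (hU : Upper k d) :
    ∃ C : ℝ, 0 < C ∧ ∀ X n : ℕ, 1 ≤ X → n ≤ d * X ^ k →
      ((Rep k d n).ncard : ℝ) ≤ C * (X : ℝ) ^ (d - k) := by
  obtain ⟨C, n0, hC, hn0, H⟩ := nat_of_upper hk hd1 hU
  refine ⟨C + (n0 : ℝ) ^ d, by positivity, ?_⟩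
  intro X n hX hn
  have hX1 : (1 : ℝ) ≤ (X : ℝ) ^ (d - k) := one_le_pow₀ (by exact_mod_cast hX)
  have hn0' : (0 : ℝ) ≤ (n0 : ℝ) ^ d := by positivity
  rcases Nat.lt_or_ge n n0 with h | h
  · have h1 : (Rep k d n).ncard ≤ n0 ^ d := by
      have e : n0 ^ d = (Box d n0).card := by simp [Box]
      rw [e, ← Set.ncard_coe_finset]
      apply Set.ncard_le_ncard _ (finite_toSet _)
      intro y hy
      have hy' : ∑ i, y i ^ k = n := hy
      rw [mem_coe, mem_Box]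
      intro i
      have h3 : y i ^ k ≤ n := by
        rw [← hy']
        exact single_le_sum (f := fun i => y i ^ k) (fun _ _ => Nat.zero_le _) (mem_univ i)
      exact lt_of_le_of_lt ((Nat.le_self_pow (by omega) (y i)).trans h3) h
    have h2 : ((Rep k d n).ncard : ℝ) ≤ (n0 : ℝ) ^ d := by exact_mod_cast h1
    nlinarith
  · refine (H X n hX h hn).trans ?_
    nlinarith

section
variable {k d X M : ℕ}

lemma s_lt (hk : 1 ≤ k) (hd1 : 1 ≤ d) {z : Fin d → ℕ} (hz : z ∈ Box d X) :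
    ∑ i, z i ^ k < d * X ^ k := by
  rw [mem_Box] at hz
  have : ∑ i, z i ^ k < ∑ _i : Fin d, X ^ k := by
    apply sum_lt_sum_of_nonempty
    · exact ⟨⟨0, hd1⟩, mem_univ _⟩
    · intro i _
      exact Nat.pow_lt_pow_left (hz i) (by omega)
  rw [sum_const, card_univ, Fintype.card_fin, smul_eq_mul] at this
  exact this

/-- a fibre -/
lemma fib [NeZero M] (hk : 1 ≤ k) (hd1 : 1 ≤ d) (hX : 1 ≤ X) (hM : d * X ^ k ≤ M) {C : ℝ}
    (H : ∀ X n : ℕ, 1 ≤ X → n ≤ d * X ^ k → ((Rep k d n).ncard : ℝ) ≤ C * (X : ℝ) ^ (d - k))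
    (hC : 0 < C) (w : ZMod M) :
    ∑ z ∈ Box d X, (if ((∑ i, z i ^ k : ℕ) : ZMod M) = w then (1 : ℝ) else 0) ≤
      C * (X : ℝ) ^ (d - k) := by
  classical
  rw [sum_boole]
  rcases Finset.eq_empty_or_nonempty
    ((Box d X).filter (fun z => ((∑ i, z i ^ k : ℕ) : ZMod M) = w)) with he | ⟨z0, hz0⟩
  · rw [he, card_empty]
    push_cast
    positivity
  · rw [mem_filter] at hz0
    have h0 := s_lt hk hd1 hz0.1
    refine le_trans ?_ (H X (∑ i, z0 i ^ k) hX h0.le)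
    have h4 : ((Box d X).filter (fun z => ((∑ i, z i ^ k : ℕ) : ZMod M) = w)).card ≤
        (Rep k d (∑ i, z0 i ^ k)).ncard := by
      rw [← Set.ncard_coe_finset]
      apply Set.ncard_le_ncard _ (Rep_finite (by omega) d _)
      intro y hy
      rw [mem_coe, mem_filter] at hy
      show ∑ i, y i ^ k = ∑ i, z0 i ^ k
      have h1 := s_lt hk hd1 hy.1
      have h2 := hy.2.trans hz0.2.symm
      rw [ZMod.natCast_eq_natCast_iff'] at h2
      rwa [Nat.mod_eq_of_lt (by omega), Nat.mod_eq_of_lt (by omega)] at h2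
    exact_mod_cast h4

/-- the sum function -/
def S (k : ℕ) {d : ℕ} (z : Fin d → ℕ) : ℕ := ∑ i, z i ^ k

lemma pairs_le [NeZero M] (hk : 1 ≤ k) (hd1 : 1 ≤ d) (hX : 1 ≤ X) (hM : d * X ^ k ≤ M) {C : ℝ}
    (H : ∀ X n : ℕ, 1 ≤ X → n ≤ d * X ^ k → ((Rep k d n).ncard : ℝ) ≤ C * (X : ℝ) ^ (d - k))
    (hC : 0 < C) :
    ∑ z ∈ Box d X, ∑ y ∈ Box d X, (if (S k z : ZMod M) = (S k y : ZMod M) then (1 : ℝ) else 0) ≤
      (X : ℝ) ^ d * (C * (X : ℝ) ^ (d - k)) := by
  have h0 : ((Box d X).card : ℝ) = (X : ℝ) ^ d := by simp [Box]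
  rw [← h0, ← nsmul_eq_mul, ← sum_const, sum_comm]
  apply sum_le_sum
  intro y _
  exact fib hk hd1 hX hM H hC _

lemma T_le [NeZero M] (hk : 1 ≤ k) (hd1 : 1 ≤ d) (hX : 1 ≤ X) (hM : d * X ^ k ≤ M) {C : ℝ}
    (H : ∀ X n : ℕ, 1 ≤ X → n ≤ d * X ^ k → ((Rep k d n).ncard : ℝ) ≤ C * (X : ℝ) ^ (d - k))
    (hC : 0 < C) (w : ZMod M) :
    T (Box d X) (S k) X (fun x => x ^ k) w ≤ (X : ℝ) ^ d * (X * (C * (X : ℝ) ^ (d - k))) := by
  have h0 : ((Box d X).card : ℝ) = (X : ℝ) ^ d := by simp [Box]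
  unfold T
  rw [sum_comm, ← h0, ← nsmul_eq_mul, ← sum_const]
  apply sum_le_sum
  intro y _
  rw [sum_comm]
  have h1 : (X : ℝ) * (C * (X : ℝ) ^ (d - k)) = ∑ _x ∈ range X, C * (X : ℝ) ^ (d - k) := by
    rw [sum_const, card_range, nsmul_eq_mul]
  rw [h1]
  apply sum_le_sum
  intro x _
  refine le_trans (le_of_eq ?_) (fib hk hd1 hX hM H hC (w - (S k y : ZMod M) - ((x ^ k : ℕ) : ZMod M)))
  apply sum_congr rfl
  intro z _
  have h2 : (w = (S k z : ZMod M) + (S k y : ZMod M) + ((x ^ k : ℕ) : ZMod M)) ↔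
      ((∑ i, z i ^ k : ℕ) : ZMod M) = w - (S k y : ZMod M) - ((x ^ k : ℕ) : ZMod M) := by
    constructor
    · intro h
      show (S k z : ZMod M) = _
      rw [h]
      ring
    · intro h
      have h' : (S k z : ZMod M) = w - (S k y : ZMod M) - ((x ^ k : ℕ) : ZMod M) := h
      rw [h']
      ring
  simp only [h2]

lemma T_nonneg [NeZero M] {ι : Type*} (E : Finset ι) (s : ι → ℕ) (X : ℕ) (p : ℕ → ℕ) (w : ZMod M) :
    0 ≤ T E s X p w := by
  unfold T
  apply sum_nonneg; intro z _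
  apply sum_nonneg; intro y _
  apply sum_nonneg; intro x _
  split_ifs <;> norm_num

lemma T_total [NeZero M] {ι : Type*} (E : Finset ι) (s : ι → ℕ) (X : ℕ) (p : ℕ → ℕ) :
    ∑ w : ZMod M, T E s X p w = E.card * (E.card * X) := by
  unfold T
  rw [sum_comm]
  have h : ∀ z ∈ E, ∑ w : ZMod M, ∑ y ∈ E, ∑ x ∈ range X,
      (if w = (s z : ZMod M) + (s y : ZMod M) + (p x : ZMod M) then (1 : ℝ) else 0) =
        (E.card * X : ℝ) := by
    intro z _
    rw [sum_comm]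
    have h1 : ∀ y ∈ E, ∑ w : ZMod M, ∑ x ∈ range X,
      (if w = (s z : ZMod M) + (s y : ZMod M) + (p x : ZMod M) then (1 : ℝ) else 0) = (X : ℝ) := by
      intro y _
      rw [sum_comm]
      have h2 : ∀ x ∈ range X, ∑ w : ZMod M,
        (if w = (s z : ZMod M) + (s y : ZMod M) + (p x : ZMod M) then (1 : ℝ) else 0) = 1 := by
        intro x _
        rw [sum_ite_eq' univ, if_pos (mem_univ _)]
      rw [sum_congr rfl h2, sum_const, card_range, nsmul_eq_mul, mul_one]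
    rw [sum_congr rfl h1, sum_const, nsmul_eq_mul]
  rw [sum_congr rfl h, sum_const, nsmul_eq_mul]

/-- solutions counted by `T` are representations. -/
lemma T_le_Rep [NeZero M] (hk : 1 ≤ k) (hd1 : 1 ≤ d) (hM : 3 * (d * X ^ k) ≤ M) {n : ℕ} (hn : n < M) :
    T (Box d X) (S k) X (fun x => x ^ k) (n : ZMod M) ≤ ((Rep k (d + d + 1) n).ncard : ℝ) := by
  classical
  set F := ((Box d X) ×ˢ ((Box d X) ×ˢ (range X))).filter
    (fun q => (n : ZMod M) = (S k q.1 : ZMod M) + (S k q.2.1 : ZMod M) + ((q.2.2 ^ k : ℕ) : ZMod M)) with hF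
  have h1 : T (Box d X) (S k) X (fun x => x ^ k) (n : ZMod M) = (F.card : ℝ) := by
    rw [hF, ← sum_boole, sum_product]
    unfold T
    apply sum_congr rfl
    intro z _
    rw [sum_product]
  rw [h1, ← Set.ncard_coe_finset]
  have h2 : ((F : Set ((Fin d → ℕ) × (Fin d → ℕ) × ℕ))).ncard ≤ (Rep k (d + d + 1) n).ncard := by
    apply Set.ncard_le_ncard_of_injOn
      (fun q => (Fin.snoc (Fin.append q.1 q.2.1) q.2.2 : Fin (d + d + 1) → ℕ)) _ _
      (Rep_finite (by omega) _ _)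
    · intro q hq
      rw [mem_coe, hF, mem_filter, mem_product, mem_product, mem_range] at hq
      show ∑ i, (Fin.snoc (Fin.append q.1 q.2.1) q.2.2 : Fin (d + d + 1) → ℕ) i ^ k = n
      rw [Fin.sum_univ_castSucc]
      simp only [Fin.snoc_castSucc, Fin.snoc_last]
      rw [Fin.sum_univ_add]
      simp only [Fin.append_left, Fin.append_right]
      have h3 := s_lt hk hd1 hq.1.1
      have h4 := s_lt hk hd1 hq.1.2.1
      have h5 : q.2.2 ^ k < d * X ^ k := by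
        have h6 : q.2.2 ^ k < X ^ k := Nat.pow_lt_pow_left hq.1.2.2 (by omega)
        have h7 : X ^ k ≤ d * X ^ k := Nat.le_mul_of_pos_left _ hd1
        omega
      have h6 := hq.2
      have h7 : (n : ZMod M) = ((S k q.1 + S k q.2.1 + q.2.2 ^ k : ℕ) : ZMod M) := by
        rw [h6]; push_cast; ring
      rw [ZMod.natCast_eq_natCast_iff'] at h7
      unfold S at h7
      rw [Nat.mod_eq_of_lt hn, Nat.mod_eq_of_lt (by omega)] at h7
      exact h7.symm
    · intro q hq q' hq' h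
      have h3 : (Fin.snoc (Fin.append q.1 q.2.1) q.2.2 : Fin (d + d + 1) → ℕ) =
        Fin.snoc (Fin.append q'.1 q'.2.1) q'.2.2 := h
      have h4 : q.2.2 = q'.2.2 := by
        have := congrFun h3 (Fin.last _)
        simpa using this
      have h5 : ∀ i : Fin (d + d), Fin.append q.1 q.2.1 i = Fin.append q'.1 q'.2.1 i := by
        intro i
        have := congrFun h3 i.castSucc
        simpa using this
      have h6 : q.1 = q'.1 := by
        funext i
        have := h5 (Fin.castAdd d i)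
        rw [Fin.append_left, Fin.append_left] at this
        exact this
      have h7 : q.2.1 = q'.2.1 := by
        funext i
        have := h5 (Fin.natAdd d i)
        rw [Fin.append_right, Fin.append_right] at this
        exact this
      exact Prod.ext h6 (Prod.ext h7 h4)
  exact_mod_cast h2

end

theorem prog {k d : ℕ} (hk : 1 ≤ k) (hd1 : 1 ≤ d) (hU : Upper k d) :
    ∃ Q K X₀ : ℕ, 1 ≤ Q ∧ 1 ≤ K ∧ ∃ c : ℝ, 0 < c ∧ ∀ X : ℕ, X₀ ≤ X → ∃ n₀ : ℕ, n₀ ≤ 3 * d * X ^ k ∧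
      ∀ j : ℕ, K * j ≤ X ^ k → n₀ + Q * j ≤ 4 * d * X ^ k ∧
        c * (X : ℝ) ^ (d + d + 1 - k) ≤ ((Rep k (d + d + 1) (n₀ + Q * j)).ncard : ℝ) := by
  have hkd := le_of_upper hk hd1 hU
  obtain ⟨C, hC, H⟩ := upper_all hk hd1 hU
  have hdR : (1 : ℝ) ≤ d := by exact_mod_cast hd1
  set u : ℝ := 128 * d * C + 1 with hu
  have hu1 : 1 ≤ u := by
    have : 0 ≤ 128 * (d : ℝ) * C := by positivity
    linarith
  have hu0 : 0 < u := by linarith
  obtain ⟨Q, C₂, hQ1, hQC, hσ⟩ := sigma_bound k hk u hu1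
  have hC₂ : 1 ≤ C₂ := by omega
  refine ⟨Q, C₂ * (⌈64 * d * C⌉₊ + 1), C₂ + 1, hQ1, Nat.mul_pos hC₂ (by omega), 1 / (16 * d),
    by positivity, ?_⟩
  intro X hX
  have hX1 : 1 ≤ X := by omega
  have hXR : (0 : ℝ) < X := by exact_mod_cast hX1
  have hXk : X ≤ X ^ k := Nat.le_self_pow (by omega) _
  have hdX : 1 ≤ d * X ^ k := Nat.mul_pos hd1 (by omega)
  set M : ℕ := 8 * (d * X ^ k) with hM
  have : NeZero M := ⟨by omega⟩
  set L : ℕ := X ^ k / C₂ with hL
  have hCL : C₂ * L ≤ X ^ k := Nat.mul_div_le _ _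
  have hL1 : 1 ≤ L := by
    rw [hL, Nat.le_div_iff_mul_le (by omega)]
    omega
  have hCL2 : X ^ k ≤ 2 * C₂ * L := by
    have h1 : X ^ k < C₂ * (L + 1) := by
      rw [hL]
      exact Nat.lt_mul_div_succ (X ^ k) (show 0 < C₂ by omega)
    nlinarith
  have hL0 : (0 : ℝ) < L := by exact_mod_cast hL1
  set W : ℝ := (X : ℝ) ^ d * (X * (X : ℝ) ^ (d - k)) with hW
  have hW0 : 0 < W := by positivity
  have hWe : (X : ℝ) ^ (d + d + 1 - k) = W := by
    rw [hW, ← pow_succ', ← pow_add]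
    congr 1
    omega
  have hWe2 : (X : ℝ) ^ d * ((X : ℝ) ^ d * X) = W * (X : ℝ) ^ k := by
    rw [← hWe, ← pow_succ, ← pow_add, ← pow_add]
    congr 1
    omega
  set τ : ZMod M → ℝ := fun w => T (Box d X) (S k) X (fun x => x ^ k) w with hτ
  have hτ0 : ∀ w, 0 ≤ τ w := fun w => T_nonneg _ _ _ _ _
  have hτmax : ∀ w, τ w ≤ C * W := by
    intro w
    refine (T_le hk hd1 hX1 (by omega) H hC w).trans (le_of_eq ?_)
    rw [hW]; ring
  have hap : ∀ w : ZMod M, |L * τ w - ∑ l ∈ range L, τ (w - ((Q * l : ℕ) : ZMod M))| ≤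
      2 * L / u * (C * W) := by
    intro w
    refine (ap (Box d X) (S k) X L (fun x => x ^ k) (fun l => Q * l) w (2 * X * L / u)
      (fun ξ => hσ X M hX1 L hCL ξ)).trans ?_
    have h1 := pairs_le (M := M) hk hd1 hX1 (by omega) H hC
    calc 2 * X * L / u * ∑ z ∈ Box d X, ∑ y ∈ Box d X,
          (if (S k z : ZMod M) = (S k y : ZMod M) then (1 : ℝ) else 0)
        ≤ 2 * X * L / u * ((X : ℝ) ^ d * (C * (X : ℝ) ^ (d - k))) :=
          mul_le_mul_of_nonneg_left h1 (by positivity)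
      _ = 2 * L / u * (C * W) := by rw [hW]; ring
  -- pigeonhole
  obtain ⟨w0, hw0⟩ : ∃ w : ZMod M, W / (8 * d) ≤ τ w := by
    by_contra hcon
    push Not at hcon
    have h1 : ∑ w : ZMod M, τ w < ∑ _w : ZMod M, W / (8 * d) :=
      sum_lt_sum_of_nonempty ⟨0, mem_univ _⟩ (fun w _ => hcon w)
    rw [hτ, T_total, sum_const, card_univ, ZMod.card, nsmul_eq_mul] at h1
    have h0 : ((Box d X).card : ℝ) = (X : ℝ) ^ d := by simp [Box]
    rw [h0, hWe2, hM] at h1
    push_cast at h1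
    have e : 8 * ((d : ℝ) * (X : ℝ) ^ k) * (W / (8 * d)) = W * (X : ℝ) ^ k := by
      field_simp
    rw [e] at h1
    exact lt_irrefl _ h1
  obtain ⟨n₀, hn₀, hn₀2⟩ : ∃ n₀ : ℕ, n₀ ≤ 3 * d * X ^ k ∧ w0 = (n₀ : ZMod M) := by
    have h1 : 0 < τ w0 := lt_of_lt_of_le (by positivity) hw0
    by_contra hcon
    push Not at hcon
    have h2 : τ w0 = 0 := by
      show T (Box d X) (S k) X (fun x => x ^ k) w0 = 0
      unfold T
      apply sum_eq_zero; intro z hz
      apply sum_eq_zero; intro y hy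
      apply sum_eq_zero; intro x hx
      rw [if_neg]
      intro h5
      apply hcon (S k z + S k y + x ^ k)
      · have h5 := s_lt hk hd1 hz
        have h6 := s_lt hk hd1 hy
        rw [mem_range] at hx
        have h7 : x ^ k ≤ X ^ k := Nat.pow_le_pow_left hx.le k
        have h8 : X ^ k ≤ d * X ^ k := Nat.le_mul_of_pos_left _ hd1
        unfold S
        have e : 3 * d * X ^ k = 3 * (d * X ^ k) := by ring
        omega
      · rw [h5]
        push_cast
        ring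
    rw [h2] at h1
    exact lt_irrefl _ h1
  refine ⟨n₀, hn₀, ?_⟩
  intro j hj
  have hj1 : Q * j ≤ X ^ k := by
    refine le_trans (Nat.mul_le_mul_right j ?_) hj
    exact hQC.trans (Nat.le_mul_of_pos_right _ (by omega))
  have hXd : X ^ k ≤ d * X ^ k := Nat.le_mul_of_pos_left _ hd1
  have e3 : 3 * d * X ^ k = 3 * (d * X ^ k) := by ring
  have e4 : 4 * d * X ^ k = 4 * (d * X ^ k) := by ring
  refine ⟨by omega, ?_⟩
  rw [hWe]
  refine le_trans ?_ (T_le_Rep (X := X) (M := M) hk hd1 (by omega) (by omega : n₀ + Q * j < M))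
  show 1 / (16 * (d : ℝ)) * W ≤ τ ((n₀ + Q * j : ℕ) : ZMod M)
  set w : ZMod M := ((n₀ + Q * j : ℕ) : ZMod M) with hw
  have hb : ∀ l : ℕ, τ (w - ((Q * (j + l) : ℕ) : ZMod M)) = τ (w0 - ((Q * l : ℕ) : ZMod M)) := by
    intro l
    congr 1
    rw [hw, hn₀2]
    push_cast
    ring
  have h1 := hap w0
  have h2 := hap w
  have h3 : ∑ l ∈ range L, τ (w0 - ((Q * l : ℕ) : ZMod M)) ≤
      ∑ l ∈ range L, τ (w - ((Q * l : ℕ) : ZMod M)) + j * (C * W) := by
    have h4 := sum_range_add (fun l => τ (w - ((Q * l : ℕ) : ZMod M))) j L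
    have h5 := sum_range_add (fun l => τ (w - ((Q * l : ℕ) : ZMod M))) L j
    rw [add_comm j L] at h4
    rw [h4] at h5
    rw [sum_congr rfl fun l _ => hb l] at h5
    have h6 : 0 ≤ ∑ l ∈ range j, τ (w - ((Q * l : ℕ) : ZMod M)) := sum_nonneg fun l _ => hτ0 _
    have h7 : ∑ l ∈ range j, τ (w - ((Q * (L + l) : ℕ) : ZMod M)) ≤ j * (C * W) := by
      calc _ ≤ ∑ _l ∈ range j, C * W := sum_le_sum fun l _ => hτmax _
        _ = _ := by rw [sum_const, card_range, nsmul_eq_mul]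
    linarith
  rw [abs_le] at h1 h2
  have hjR : (j : ℝ) * C ≤ L / (32 * d) := by
    have h4 : C₂ * (⌈64 * d * C⌉₊ + 1) * j ≤ 2 * C₂ * L := hj.trans hCL2
    have h5 : (⌈64 * d * C⌉₊ + 1) * j ≤ 2 * L := by
      have : C₂ * ((⌈64 * d * C⌉₊ + 1) * j) ≤ C₂ * (2 * L) := by nlinarith
      exact Nat.le_of_mul_le_mul_left this (by omega)
    have h6 : ((⌈64 * d * C⌉₊ : ℝ) + 1) * j ≤ 2 * L := by exact_mod_cast h5
    have h7 := Nat.le_ceil (64 * (d : ℝ) * C)
    have h8 : (0 : ℝ) ≤ j := Nat.cast_nonneg _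
    rw [le_div_iff₀ (by positivity)]
    nlinarith
  have hCu : 2 * L / u * C ≤ L / (64 * d) := by
    rw [div_mul_eq_mul_div, div_le_div_iff₀ hu0 (by positivity)]
    have h4 : 128 * (d : ℝ) * C ≤ u := by rw [hu]; linarith
    have h5 : (L : ℝ) * (128 * (d : ℝ) * C) ≤ L * u := mul_le_mul_of_nonneg_left h4 hL0.le
    nlinarith
  have h8 : 2 * L / u * (C * W) ≤ L / (64 * d) * W := by
    calc 2 * L / u * (C * W) = (2 * L / u * C) * W := by ring
      _ ≤ _ := mul_le_mul_of_nonneg_right hCu hW0.le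
  have h9 : (j : ℝ) * (C * W) ≤ L / (32 * d) * W := by
    calc (j : ℝ) * (C * W) = (j * C) * W := by ring
      _ ≤ _ := mul_le_mul_of_nonneg_right hjR hW0.le
  have h10 : (L : ℝ) * (W / (8 * d)) ≤ L * τ w0 := mul_le_mul_of_nonneg_left hw0 hL0.le
  have h11 : (L : ℝ) * (1 / (16 * d) * W) ≤ L * τ w := by
    have e1 : (L : ℝ) * (W / (8 * d)) - L / (64 * d) * W - L / (64 * d) * W - L / (32 * d) * W =
      L * (1 / (16 * d) * W) := by
      field_simp
      ring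
    linarith [h1.1, h1.2, h2.1, h2.2]
  exact le_of_mul_le_mul_left h11 hL0

end Pool.Agent.TH854.KS
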