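import Pool.Agent.TH854.KS.L4
import Pool.Agent.TH882.WM7

/-! The order of magnitude in all large dimensions. -/

set_option autoImplicit false

open Finset

namespace Pool.Agent.TH854.KS

open Pool.Agent.TH882.WM (Loc)

/-- adding one variable, from below -/
lemma rep_succ_ge {k s n : ℕ} (hk : 1 ≤ k) (Y : Finset ℕ) (c : ℝ)
    (h : ∀ y ∈ Y, y ^ k ≤ n ∧ c ≤ ((Rep k s (n - y ^ k)).ncard : ℝ)) :
    (Y.card : ℝ) * c ≤ ((Rep k (s + 1) n).ncard : ℝ) := by
  classical
  set F : ℕ → Finset (Fin (s + 1) → ℕ) := fun y =>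
    (Rep_finite (k := k) (by omega) s (n - y ^ k)).toFinset.image
      (fun z => (Fin.snoc z y : Fin (s + 1) → ℕ)) with hF
  have hcard : ∀ y, ((F y).card : ℝ) = ((Rep k s (n - y ^ k)).ncard : ℝ) := by
    intro y
    rw [hF, card_image_of_injective, Set.ncard_eq_toFinset_card _ (Rep_finite (k := k) (by omega) s (n - y ^ k))]
    intro z z' h
    have h' : (Fin.snoc z y : Fin (s + 1) → ℕ) = Fin.snoc z' y := h
    funext i
    have := congrFun h' i.castSucc
    simpa using this
  have hdisj : ∀ a ∈ Y, ∀ b ∈ Y, a ≠ b → Disjoint (F a) (F b) := by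
    intro a _ b _ hab
    rw [disjoint_left]
    intro z h1 h2
    rw [hF, mem_image] at h1 h2
    obtain ⟨z1, _, h1⟩ := h1
    obtain ⟨z2, _, h2⟩ := h2
    apply hab
    have h3 : (Fin.snoc z1 a : Fin (s + 1) → ℕ) = Fin.snoc z2 b := h1.trans h2.symm
    have := congrFun h3 (Fin.last _)
    simpa using this
  have h1 : (Y.biUnion F).card ≤ (Rep k (s + 1) n).ncard := by
    rw [← Set.ncard_coe_finset]
    apply Set.ncard_le_ncard _ (Rep_finite (by omega) _ _)
    intro z hz
    rw [mem_coe, mem_biUnion] at hz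
    obtain ⟨y, hy, hz⟩ := hz
    rw [hF, mem_image] at hz
    obtain ⟨z', hz', rfl⟩ := hz
    rw [Set.Finite.mem_toFinset] at hz'
    have h2 : ∑ i, z' i ^ k = n - y ^ k := hz'
    show ∑ i, (Fin.snoc z' y : Fin (s + 1) → ℕ) i ^ k = n
    rw [Fin.sum_univ_castSucc]
    simp only [Fin.snoc_castSucc, Fin.snoc_last]
    rw [h2]
    have := (h y hy).1
    omega
  rw [card_biUnion hdisj] at h1
  have h2 : (Y.card : ℝ) * c ≤ ((∑ y ∈ Y, (F y).card : ℕ) : ℝ) := by
    push_cast
    rw [← nsmul_eq_mul, ← sum_const]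
    apply sum_le_sum
    intro y hy
    rw [hcard]
    exact (h y hy).2
  exact h2.trans (by exact_mod_cast h1)

/-- adding one variable, from above -/
lemma rep_succ_le {k s n : ℕ} (hk : 1 ≤ k) {X : ℕ} (hn : n < X ^ k) (c : ℝ) (hc : 0 ≤ c)
    (h : ∀ m ≤ n, ((Rep k s m).ncard : ℝ) ≤ c) :
    ((Rep k (s + 1) n).ncard : ℝ) ≤ X * c := by
  classical
  set F : ℕ → Finset (Fin (s + 1) → ℕ) := fun y =>
    (Rep_finite (k := k) (by omega) s (n - y ^ k)).toFinset.image
      (fun z => (Fin.snoc z y : Fin (s + 1) → ℕ)) with hF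
  have hcard : ∀ y, ((F y).card : ℝ) ≤ ((Rep k s (n - y ^ k)).ncard : ℝ) := by
    intro y
    rw [Set.ncard_eq_toFinset_card _ (Rep_finite (k := k) (by omega) s (n - y ^ k))]
    exact_mod_cast card_image_le
  have h1 : (Rep k (s + 1) n).ncard ≤ ((range X).biUnion F).card := by
    rw [← Set.ncard_coe_finset]
    apply Set.ncard_le_ncard _ (finite_toSet _)
    intro z hz
    have hz' : ∑ i, z i ^ k = n := hz
    rw [Fin.sum_univ_castSucc] at hz'
    rw [mem_coe, mem_biUnion]
    refine ⟨z (Fin.last _), ?_, ?_⟩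
    · rw [mem_range]
      have h2 : z (Fin.last _) ^ k < X ^ k := by omega
      exact lt_of_pow_lt_pow_left₀ k (Nat.zero_le _) h2
    · rw [hF, mem_image]
      refine ⟨fun i => z i.castSucc, ?_, ?_⟩
      · rw [Set.Finite.mem_toFinset]
        show ∑ i : Fin s, z i.castSucc ^ k = n - z (Fin.last _) ^ k
        omega
      · funext i
        refine Fin.lastCases ?_ (fun i => ?_) i
        · simp
        · simp
  have h2 : (((range X).biUnion F).card : ℝ) ≤ X * c := by
    have h3 : ((range X).biUnion F).card ≤ ∑ y ∈ range X, (F y).card := card_biUnion_le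
    have h4 : (((range X).biUnion F).card : ℝ) ≤ ∑ y ∈ range X, ((F y).card : ℝ) := by
      exact_mod_cast h3
    refine h4.trans ?_
    calc ∑ y ∈ range X, ((F y).card : ℝ) ≤ ∑ _y ∈ range X, c :=
          sum_le_sum fun y _ => (hcard y).trans (h _ (Nat.sub_le _ _))
      _ = X * c := by rw [sum_const, card_range, nsmul_eq_mul]
  exact (by exact_mod_cast h1 : ((Rep k (s + 1) n).ncard : ℝ) ≤ _).trans h2

/-- the upper bound in all larger dimensions, for natural numbers -/
lemma upper_ge {k d : ℕ} (hk : 1 ≤ k) (hd1 : 1 ≤ d) (hU : Upper k d) (j : ℕ) :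
    ∃ C : ℝ, 0 < C ∧ ∀ X n : ℕ, 1 ≤ X → n < X ^ k →
      ((Rep k (d + j) n).ncard : ℝ) ≤ C * (X : ℝ) ^ (d + j - k) := by
  have hkd := le_of_upper hk hd1 hU
  induction j with
  | zero =>
    obtain ⟨C, hC, h⟩ := upper_all hk hd1 hU
    refine ⟨C, hC, fun X n hX hn => ?_⟩
    refine h X n hX (hn.le.trans ?_)
    exact Nat.le_mul_of_pos_left _ hd1
  | succ j ih =>
    obtain ⟨C, hC, h⟩ := ih
    refine ⟨C, hC, fun X n hX hn => ?_⟩
    have h1 := rep_succ_le (s := d + j) hk hn (C * (X : ℝ) ^ (d + j - k)) (by positivity)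
      (fun m hm => h X m hX (by omega))
    refine h1.trans (le_of_eq ?_)
    have e : d + (j + 1) - k = (d + j - k) + 1 := by omega
    rw [e, pow_succ]
    ring

end Pool.Agent.TH854.KS
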