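import Pool.Agent.TH854.KS.L5

/-! The lower bound in all large dimensions. -/

set_option autoImplicit false

open Finset

namespace Pool.Agent.TH854.KS

open Pool.Agent.TH882.WM (Loc)

lemma class_sub {Q n r ρ y k : ℕ} (hy : y ≡ ρ [MOD Q]) (hle : y ^ k ≤ n)
    (h : n ≡ r + ρ ^ k [MOD Q]) : n - y ^ k ≡ r [MOD Q] := by
  have h1 : r + ρ ^ k ≡ r + y ^ k [MOD Q] := (Nat.ModEq.refl r).add (hy.symm.pow k)
  have h2 : (n - y ^ k) + y ^ k ≡ r + y ^ k [MOD Q] := by
    rw [Nat.sub_add_cancel hle]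
    exact h.trans h1
  exact Nat.ModEq.add_right_cancel' _ h2

lemma small_step {k s Q ρ Z A B r : ℕ} {c : ℝ} (hk : 1 ≤ k) (hQ : 1 ≤ Q) (hρ : ρ < Q)
    (h : ∀ n, A ≤ n → n ≤ B → n ≡ r [MOD Q] → c ≤ ((Rep k s n).ncard : ℝ)) :
    ∀ n, A + (Q * Z) ^ k ≤ n → n ≤ B → n ≡ r + ρ ^ k [MOD Q] →
      (Z : ℝ) * c ≤ ((Rep k (s + 1) n).ncard : ℝ) := by
  intro n hn1 hn2 hn3
  have hcard : ((range Z).image (fun z => ρ + Q * z)).card = Z := by
    rw [card_image_of_injective, card_range]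
    intro a b hab
    have h1 : ρ + Q * a = ρ + Q * b := hab
    exact Nat.eq_of_mul_eq_mul_left hQ (by omega)
  have h1 := rep_succ_ge (s := s) (n := n) hk ((range Z).image (fun z => ρ + Q * z)) c (by
    intro y hy
    rw [mem_image] at hy
    obtain ⟨z, hz, rfl⟩ := hy
    rw [mem_range] at hz
    have h2 : ρ + Q * z ≤ Q * Z := by
      calc ρ + Q * z ≤ Q + Q * z := by omega
        _ = Q * (z + 1) := by ring
        _ ≤ Q * Z := Nat.mul_le_mul_left _ hz
    have h3 : (ρ + Q * z) ^ k ≤ (Q * Z) ^ k := Nat.pow_le_pow_left h2 k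
    refine ⟨by omega, h _ (by omega) (by omega) ?_⟩
    apply class_sub _ (by omega) hn3
    unfold Nat.ModEq
    rw [Nat.add_mul_mod_self_left])
  rw [hcard] at h1
  exact h1

lemma small_steps {k s Q Z A B r : ℕ} {c : ℝ} (hk : 1 ≤ k) (hQ : 1 ≤ Q) (ρ : ℕ → ℕ)
    (hρ : ∀ i, ρ i < Q)
    (h : ∀ n, A ≤ n → n ≤ B → n ≡ r [MOD Q] → c ≤ ((Rep k s n).ncard : ℝ)) (i : ℕ) :
    ∀ n, A + i * (Q * Z) ^ k ≤ n → n ≤ B → n ≡ r + ∑ l ∈ range i, ρ l ^ k [MOD Q] →
      (Z : ℝ) ^ i * c ≤ ((Rep k (s + i) n).ncard : ℝ) := by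
  induction i with
  | zero =>
    intro n h1 h2 h3
    simp only [zero_mul, add_zero, range_zero, sum_empty] at h1 h3
    simpa using h n h1 h2 h3
  | succ i ih =>
    intro n h1 h2 h3
    have h4 := small_step (ρ := ρ i) (Z := Z) hk hQ (hρ i) ih n
      (by
        have e : A + (i + 1) * (Q * Z) ^ k = A + i * (Q * Z) ^ k + (Q * Z) ^ k := by ring
        omega) h2 (by
        rw [sum_range_succ] at h3
        rw [add_assoc]
        exact h3)
    have e : (Z : ℝ) ^ (i + 1) * c = Z * (Z ^ i * c) := by ring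
    rw [e]
    exact h4

/-- values of a slowly growing function in an interval -/
lemma count_values (f : ℕ → ℕ) (hf : Monotone f) (A B Δ : ℕ) (h0 : f 0 ≤ A) (hAB : A ≤ B)
    (hunb : ∃ z, B < f z) (hinc : ∀ z, f z ≤ B → f (z + 1) ≤ f z + Δ) :
    ∃ a b : ℕ, a ≤ b ∧ (∀ z ∈ Ico a b, A < f z ∧ f z ≤ B) ∧ B < A + Δ * (1 + (b - a)) := by
  classical
  have hunA : ∃ z, A < f z := by
    obtain ⟨z, hz⟩ := hunb
    exact ⟨z, by omega⟩
  set a := Nat.find hunA with ha
  set b := Nat.find hunb with hb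
  have ha1 : A < f a := Nat.find_spec hunA
  have hb1 : B < f b := Nat.find_spec hunb
  have ha2 : ∀ z, z < a → f z ≤ A := fun z hz => not_lt.1 (Nat.find_min hunA hz)
  have hb2 : ∀ z, z < b → f z ≤ B := fun z hz => not_lt.1 (Nat.find_min hunb hz)
  have hab : a ≤ b := by
    by_contra hcon
    push Not at hcon
    have := ha2 b hcon
    omega
  have ha0 : 0 < a := by
    rw [Nat.pos_iff_ne_zero]
    intro h
    rw [h] at ha1
    omega
  have hfa : f a ≤ A + Δ := by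
    have h1 := ha2 (a - 1) (by omega)
    have h2 := hinc (a - 1) (by omega)
    rw [Nat.sub_add_cancel ha0] at h2
    omega
  have hind : ∀ j, a + j ≤ b → f (a + j) ≤ f a + Δ * j := by
    intro j
    induction j with
    | zero => intro _; simp
    | succ j ih =>
      intro hj
      have h1 := ih (by omega)
      have h2 := hinc (a + j) (hb2 _ (by omega))
      have e : Δ * (j + 1) = Δ * j + Δ := by ring
      rw [← add_assoc]
      omega
  refine ⟨a, b, hab, ?_, ?_⟩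
  · intro z hz
    rw [mem_Ico] at hz
    exact ⟨lt_of_lt_of_le ha1 (hf hz.1), hb2 z hz.2⟩
  · have h1 := hind (b - a) (by omega)
    rw [Nat.add_sub_cancel' hab] at h1
    have e : Δ * (1 + (b - a)) = Δ + Δ * (b - a) := by ring
    omega

lemma pow_inc (k a b : ℕ) (hk : 1 ≤ k) : (a + b) ^ k ≤ a ^ k + k * b * (a + b) ^ (k - 1) := by
  induction k with
  | zero => omega
  | succ k ih =>
    rcases Nat.eq_zero_or_pos k with rfl | hk0
    · simp
    · have h1 := ih hk0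
      have e : k - 1 + 1 = k := by omega
      have h2 : (a + b) ^ (k + 1) = (a + b) ^ k * a + b * (a + b) ^ k := by ring
      have h3 : (a + b) ^ k * a ≤ (a ^ k + k * b * (a + b) ^ (k - 1)) * a := Nat.mul_le_mul_right _ h1
      have h4 : (a + b) ^ (k - 1) * a ≤ (a + b) ^ k := by
        calc (a + b) ^ (k - 1) * a ≤ (a + b) ^ (k - 1) * (a + b) := Nat.mul_le_mul_left _ (by omega)
          _ = (a + b) ^ k := by rw [← pow_succ, e]
      have h5 : k * b * ((a + b) ^ (k - 1) * a) ≤ k * b * (a + b) ^ k := Nat.mul_le_mul_left _ h4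
      rw [Nat.add_sub_cancel]
      calc (a + b) ^ (k + 1) = (a + b) ^ k * a + b * (a + b) ^ k := h2
        _ ≤ (a ^ k + k * b * (a + b) ^ (k - 1)) * a + b * (a + b) ^ k := by omega
        _ = a ^ (k + 1) + k * b * ((a + b) ^ (k - 1) * a) + b * (a + b) ^ k := by ring
        _ ≤ a ^ (k + 1) + k * b * (a + b) ^ k + b * (a + b) ^ k := by omega
        _ = a ^ (k + 1) + (k + 1) * b * (a + b) ^ k := by ring

theorem lower_ge {k d t : ℕ} (hk : 1 ≤ k) (hd1 : 1 ≤ d) (hU : Upper k d)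
    (hloc : ∀ Q, 1 ≤ Q → ∀ N, Loc k Q (t + 1) N) :
    ∃ c : ℝ, 0 < c ∧ ∃ X₁ : ℕ, ∀ X : ℕ, X₁ ≤ X → ∀ m : ℕ, 8 * d * X ^ k ≤ m →
      m < 8 * d * (X + 1) ^ k →
      c * (X : ℝ) ^ (d + d + 1 + t + 1 - k) ≤ ((Rep k (d + d + 1 + t + 1) m).ncard : ℝ) := by
  have hkd := le_of_upper hk hd1 hU
  obtain ⟨Q, K, X₀, hQ, hK, c, hc, hprog⟩ := prog hk hd1 hU
  set G : ℕ := Q * (4 * K * (t + 1)) with hG
  have hG1 : 1 ≤ G := Nat.mul_pos hQ (Nat.mul_pos (Nat.mul_pos (by norm_num) hK) (by omega))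
  set G₂ : ℕ := 4 * K * (k * Q * (17 * d) ^ (k - 1)) with hG₂
  have hG₂1 : 1 ≤ G₂ := Nat.mul_pos (Nat.mul_pos (by norm_num) hK)
    (Nat.mul_pos (Nat.mul_pos hk hQ) (Nat.pow_pos (by omega : 0 < 17 * d)))
  refine ⟨c / (2 * G₂ * (2 * G) ^ t), by positivity, X₀ + K + G + 2 * G₂ + Q + 1, ?_⟩
  intro X hX m hm1 hm2
  obtain ⟨n₀, hn₀, hwin⟩ := hprog X (by omega)
  have hX1 : 1 ≤ X := by omega
  have hXk : X ≤ X ^ k := Nat.le_self_pow (by omega) _
  set J : ℕ := X ^ k / K with hJ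
  have hKJ : K * J ≤ X ^ k := Nat.mul_div_le _ _
  have hJ1 : 1 ≤ J := by
    rw [hJ, Nat.le_div_iff_mul_le (by omega)]
    omega
  have hKJ2 : X ^ k ≤ 2 * K * J := by
    have h1 : X ^ k < K * (J + 1) := by
      rw [hJ]
      exact Nat.lt_mul_div_succ (X ^ k) (show 0 < K by omega)
    nlinarith
  set Z : ℕ := X / G with hZ
  have hGZ : G * Z ≤ X := Nat.mul_div_le _ _
  have hZ1 : 1 ≤ Z := by
    rw [hZ, Nat.le_div_iff_mul_le (by omega)]
    omega
  have hGZ2 : X ≤ 2 * G * Z := by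
    have h1 : X < G * (Z + 1) := by
      rw [hZ]
      exact Nat.lt_mul_div_succ X (show 0 < G by omega)
    nlinarith
  set V : ℕ := (Q * Z) ^ k with hV
  have hVJ : 2 * (t + 1) * V ≤ J := by
    have h1 : V * (4 * K * (t + 1)) ≤ X ^ k := by
      calc V * (4 * K * (t + 1)) ≤ (Q * Z) ^ k * (4 * K * (t + 1)) ^ k :=
            Nat.mul_le_mul_left _ (Nat.le_self_pow (by omega) _)
        _ = (G * Z) ^ k := by rw [← mul_pow, hG]; congr 1; ring
        _ ≤ X ^ k := Nat.pow_le_pow_left hGZ k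
    have h2 : (2 * K) * (2 * (t + 1) * V) ≤ (2 * K) * J := by
      calc (2 * K) * (2 * (t + 1) * V) = V * (4 * K * (t + 1)) := by ring
        _ ≤ X ^ k := h1
        _ ≤ 2 * K * J := hKJ2
    exact Nat.le_of_mul_le_mul_left h2 (by omega)
  have htV : 2 * (t * V) ≤ J := by
    refine le_trans ?_ hVJ
    nlinarith
  obtain ⟨hn4, -⟩ := hwin J hKJ
  have hQJ : J ≤ Q * J := Nat.le_mul_of_pos_left _ hQ
  -- the window
  have hw0 : ∀ n, n₀ ≤ n → n ≤ n₀ + Q * J → n ≡ n₀ [MOD Q] →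
      c * (X : ℝ) ^ (d + d + 1 - k) ≤ ((Rep k (d + d + 1) n).ncard : ℝ) := by
    intro n h1 h2 h3
    obtain ⟨j, hj⟩ : Q ∣ n - n₀ := (Nat.modEq_iff_dvd' h1).1 h3.symm
    have h4 : n = n₀ + Q * j := by omega
    have h5 : j ≤ J := by
      have : Q * j ≤ Q * J := by omega
      exact Nat.le_of_mul_le_mul_left this hQ
    rw [h4]
    exact (hwin j ((Nat.mul_le_mul_left K h5).trans hKJ)).2
  -- residues
  obtain ⟨r, hr⟩ := hloc Q hQ (m - n₀)
  set ρ : ℕ → ℕ := fun i => if h : i < t + 1 then r ⟨i, h⟩ % Q else 0 with hρd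
  have hρ : ∀ i, ρ i < Q := by
    intro i
    rw [hρd]
    dsimp only
    split_ifs
    · exact Nat.mod_lt _ hQ
    · omega
  have hdX : X ^ k ≤ d * X ^ k := Nat.le_mul_of_pos_left _ hd1
  have e8 : 8 * d * X ^ k = 8 * (d * X ^ k) := by ring
  have e4 : 4 * d * X ^ k = 4 * (d * X ^ k) := by ring
  have hmn : n₀ ≤ m := by omega
  have hρs : m ≡ (n₀ + ∑ l ∈ range t, ρ l ^ k) + ρ t ^ k [MOD Q] := by
    have h1 : ∑ l ∈ range (t + 1), ρ l ^ k ≡ ∑ l, r l ^ k [MOD Q] := by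
      rw [sum_range]
      have h2 : ∀ l : Fin (t + 1), ρ l = r l % Q := by
        intro l
        rw [hρd]
        dsimp only
        rw [dif_pos l.2]
      have h3 : ∀ l : Fin (t + 1), ((ρ l ^ k : ℕ) : ZMod Q) = ((r l ^ k : ℕ) : ZMod Q) := by
        intro l
        rw [h2 l]
        push_cast
        rw [ZMod.natCast_mod]
      rw [← ZMod.natCast_eq_natCast_iff]
      rw [Nat.cast_sum, Nat.cast_sum]
      exact sum_congr rfl fun l _ => h3 l
    have h2 : m - n₀ + n₀ ≡ ∑ l ∈ range (t + 1), ρ l ^ k + n₀ [MOD Q] :=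
      (hr.trans h1.symm).add_right n₀
    rw [Nat.sub_add_cancel hmn, sum_range_succ] at h2
    have e : (n₀ + ∑ l ∈ range t, ρ l ^ k) + ρ t ^ k = ∑ l ∈ range t, ρ l ^ k + ρ t ^ k + n₀ := by ring
    rw [e]
    exact h2
  have hsm : ∀ n, n₀ + t * V ≤ n → n ≤ n₀ + Q * J → n ≡ n₀ + ∑ l ∈ range t, ρ l ^ k [MOD Q] →
      (Z : ℝ) ^ t * (c * (X : ℝ) ^ (d + d + 1 - k)) ≤ ((Rep k (d + d + 1 + t) n).ncard : ℝ) :=
    small_steps (Z := Z) hk hQ ρ hρ hw0 t
  -- last variable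
  set f : ℕ → ℕ := fun z => (ρ t + Q * z) ^ k with hf
  have hfm : Monotone f := by
    intro a b hab
    exact Nat.pow_le_pow_left (Nat.add_le_add_left (Nat.mul_le_mul_left _ hab) _) k
  obtain ⟨a, b, hab, hval, hcount⟩ := count_values f hfm (m - (n₀ + Q * J)) (m - (n₀ + t * V))
    (k * Q * (17 * d * X) ^ (k - 1))
    (by
      have h1 : f 0 ≤ Q ^ k := by
        show (ρ t + Q * 0) ^ k ≤ Q ^ k
        rw [mul_zero, add_zero]
        exact Nat.pow_le_pow_left (hρ t).le k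
      have h2 : Q ^ k ≤ X ^ k := Nat.pow_le_pow_left (by omega) k
      omega)
    (by omega)
    (by
      refine ⟨m + 1, ?_⟩
      have h1 : ρ t + Q * (m + 1) ≤ (ρ t + Q * (m + 1)) ^ k := Nat.le_self_pow (by omega) _
      have h2 : m + 1 ≤ Q * (m + 1) := Nat.le_mul_of_pos_left _ hQ
      show m - (n₀ + t * V) < (ρ t + Q * (m + 1)) ^ k
      omega)
    (by
      intro z hz
      have h1 : (ρ t + Q * z) ^ k ≤ m := by
        have : f z ≤ m - (n₀ + t * V) := hz
        exact this.trans (Nat.sub_le _ _)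
      have h2 : ρ t + Q * z ≤ 16 * d * X := by
        have h3 : (ρ t + Q * z) ^ k ≤ (16 * d * X) ^ k := by
          calc (ρ t + Q * z) ^ k ≤ 8 * d * (X + 1) ^ k := h1.trans hm2.le
            _ ≤ (8 * d) ^ k * (2 * X) ^ k := by
                apply Nat.mul_le_mul (Nat.le_self_pow (by omega) _)
                exact Nat.pow_le_pow_left (by omega) k
            _ = (16 * d * X) ^ k := by rw [← mul_pow]; congr 1; ring
        exact le_of_pow_le_pow_left₀ (by omega) (Nat.zero_le _) h3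
      show (ρ t + Q * (z + 1)) ^ k ≤ (ρ t + Q * z) ^ k + k * Q * (17 * d * X) ^ (k - 1)
      have e : ρ t + Q * (z + 1) = (ρ t + Q * z) + Q := by ring
      rw [e]
      refine (pow_inc k (ρ t + Q * z) Q hk).trans ?_
      apply Nat.add_le_add_left
      apply Nat.mul_le_mul_left
      apply Nat.pow_le_pow_left
      have h5 : X ≤ d * X := Nat.le_mul_of_pos_left _ hd1
      have e2 : 16 * d * X = 16 * (d * X) := by ring
      have e3 : 17 * d * X = 17 * (d * X) := by ring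
      omega)
  have hcardY : ((Ico a b).image (fun z => ρ t + Q * z)).card = b - a := by
    rw [card_image_of_injective, Nat.card_Ico]
    intro x y hxy
    have h1 : ρ t + Q * x = ρ t + Q * y := hxy
    exact Nat.eq_of_mul_eq_mul_left hQ (by omega)
  have hlast := rep_succ_ge (s := d + d + 1 + t) (n := m) hk
    ((Ico a b).image (fun z => ρ t + Q * z)) ((Z : ℝ) ^ t * (c * (X : ℝ) ^ (d + d + 1 - k))) (by
    intro y hy
    rw [mem_image] at hy
    obtain ⟨z, hz, rfl⟩ := hy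
    obtain ⟨h1, h2⟩ := hval z hz
    have h1' : m - (n₀ + Q * J) < (ρ t + Q * z) ^ k := h1
    have h2' : (ρ t + Q * z) ^ k ≤ m - (n₀ + t * V) := h2
    refine ⟨by omega, hsm _ (by omega) (by omega) ?_⟩
    apply class_sub _ (by omega) hρs
    unfold Nat.ModEq
    rw [Nat.add_mul_mod_self_left])
  rw [hcardY] at hlast
  -- the number of values
  have hnum : (X : ℝ) / (2 * G₂) ≤ ((b - a : ℕ) : ℝ) := by
    have h1 : J < 2 * (k * Q * (17 * d * X) ^ (k - 1)) * (1 + (b - a)) := by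
      have h2 : m - (n₀ + t * V) - (m - (n₀ + Q * J)) < k * Q * (17 * d * X) ^ (k - 1) * (1 + (b - a)) := by
        omega
      have h3 : J ≤ 2 * (m - (n₀ + t * V) - (m - (n₀ + Q * J))) := by omega
      calc J ≤ 2 * (m - (n₀ + t * V) - (m - (n₀ + Q * J))) := h3
        _ < 2 * (k * Q * (17 * d * X) ^ (k - 1) * (1 + (b - a))) := by omega
        _ = _ := by ring
    have h2 : X ^ k < X ^ (k - 1) * (G₂ * (1 + (b - a))) := by
      calc X ^ k ≤ 2 * K * J := hKJ2
        _ < 2 * K * (2 * (k * Q * (17 * d * X) ^ (k - 1)) * (1 + (b - a))) :=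
            Nat.mul_lt_mul_of_pos_left h1 (by omega)
        _ = X ^ (k - 1) * (G₂ * (1 + (b - a))) := by rw [hG₂, mul_pow]; ring
    have h3 : X ^ k = X ^ (k - 1) * X := by
      rw [← pow_succ]; congr 1; omega
    rw [h3] at h2
    have h4 : X < G₂ * (1 + (b - a)) := lt_of_mul_lt_mul_left h2 (Nat.zero_le _)
    have h5 : X ≤ 2 * G₂ * (b - a) := by
      have h6 : 2 * G₂ ≤ X := by omega
      have e : G₂ * (1 + (b - a)) = G₂ + G₂ * (b - a) := by ring
      have e2 : 2 * G₂ * (b - a) = 2 * (G₂ * (b - a)) := by ring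
      omega
    have hG₂0 : (0 : ℝ) < G₂ := by exact_mod_cast hG₂1
    rw [div_le_iff₀ (by positivity)]
    have h6 : (X : ℝ) ≤ 2 * G₂ * ((b - a : ℕ) : ℝ) := by exact_mod_cast h5
    linarith
  have hZR : (X : ℝ) / (2 * G) ≤ Z := by
    have hG0 : (0 : ℝ) < G := by exact_mod_cast hG1
    rw [div_le_iff₀ (by positivity)]
    have h6 : (X : ℝ) ≤ 2 * G * Z := by exact_mod_cast hGZ2
    linarith
  refine le_trans (le_of_eq ?_) ((mul_le_mul hnum (mul_le_mul_of_nonneg_right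
    (pow_le_pow_left₀ (by positivity) hZR t) (by positivity)) (by positivity) (by positivity)).trans hlast)
  have e : (X : ℝ) ^ (d + d + 1 + t + 1 - k) = X * (X ^ t * X ^ (d + d + 1 - k)) := by
    rw [← pow_add, ← pow_succ']
    congr 1
    omega
  rw [e, div_pow]
  have hG₂0 : (0 : ℝ) < G₂ := by exact_mod_cast hG₂1
  have hG0 : (0 : ℝ) < G := by exact_mod_cast hG1
  field_simp

end Pool.Agent.TH854.KS
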