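import Pool.Agent.TH854.KS.L6

/-! Assembly: the order of magnitude in all large dimensions. -/

set_option autoImplicit false

open Finset

namespace Pool.Agent.TH854.KS

open Pool.Agent.TH882.WM (Loc)

/-- signs -/
lemma sphere_le_Rep {k D n : ℕ} (hk : 1 ≤ k) {r : ℝ} (hr : 0 < r) (hrn : r ^ k = n) :
    ((sphere k D r).ncard : ℝ) ≤ 2 ^ D * ((Rep k D n).ncard : ℝ) := by
  classical
  have h1 : (sphere k D r).ncard ≤
      ((Rep k D n) ×ˢ (Set.univ : Set (Fin D → Bool))).ncard := by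
    apply Set.ncard_le_ncard_of_injOn (fun m => ((fun i => (m i).natAbs), (fun i => decide (0 ≤ m i)))) _ _
      ((Rep_finite (by omega) D n).prod Set.finite_univ)
    · intro m hm
      rw [Set.mem_prod]
      refine ⟨?_, Set.mem_univ _⟩
      have hm' : ∑ i, |(m i : ℝ)| ^ k = r ^ k := hm
      show ∑ i, (m i).natAbs ^ k = n
      rw [hrn] at hm'
      have h : ∀ i, |(m i : ℝ)| = (((m i).natAbs : ℕ) : ℝ) := by
        intro i
        rw [Nat.cast_natAbs, Int.cast_abs]
      simp_rw [h] at hm'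
      exact_mod_cast hm'
    · intro m _ m' _ h
      have h2 := congrArg Prod.fst h
      have h3 := congrArg Prod.snd h
      funext i
      have h4 : (m i).natAbs = (m' i).natAbs := congrFun h2 i
      have h5 : decide (0 ≤ m i) = decide (0 ≤ m' i) := congrFun h3 i
      have h6 : (0 ≤ m i) ↔ (0 ≤ m' i) := by
        simpa using h5
      omega
  have h2 : ((Rep k D n) ×ˢ (Set.univ : Set (Fin D → Bool))).ncard = (Rep k D n).ncard * 2 ^ D := by
    rw [Set.ncard_prod, Set.ncard_univ, Nat.card_eq_fintype_card, Fintype.card_fun,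
      Fintype.card_bool, Fintype.card_fin]
  rw [h2] at h1
  have h3 : ((sphere k D r).ncard : ℝ) ≤ (((Rep k D n).ncard * 2 ^ D : ℕ) : ℝ) := by exact_mod_cast h1
  push_cast at h3
  linarith

/-- choice of the scale -/
lemma exists_scale {k a n : ℕ} (hk : 1 ≤ k) (ha : 1 ≤ a) :
    ∃ X : ℕ, a * X ^ k ≤ n ∧ n < a * (X + 1) ^ k := by
  classical
  have hex : ∃ X : ℕ, n < a * (X + 1) ^ k := by
    refine ⟨n, ?_⟩
    calc n < n + 1 := Nat.lt_succ_self _
      _ ≤ (n + 1) ^ k := Nat.le_self_pow (by omega) _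
      _ ≤ a * (n + 1) ^ k := Nat.le_mul_of_pos_left _ ha
  refine ⟨Nat.find hex, ?_, Nat.find_spec hex⟩
  rcases Nat.eq_zero_or_pos (Nat.find hex) with h0 | hpos
  · rw [h0, zero_pow (by omega)]
    omega
  · have h := Nat.find_min hex (m := Nat.find hex - 1) (by omega)
    rw [Nat.sub_add_cancel hpos] at h
    omega

theorem order_ge {k d t : ℕ} (hk : 1 ≤ k) (hd1 : 1 ≤ d) (hU : Upper k d)
    (hloc : ∀ Q, 1 ≤ Q → ∀ N, Loc k Q (t + 1) N) :
    ∃ c C r₀ : ℝ, 0 < c ∧ c ≤ C ∧ ∀ r : ℝ, 0 < r → r₀ ≤ r → ∀ n : ℕ, r ^ k = n →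
      c * r ^ (((d + d + 1 + t + 1 : ℕ) : ℝ) - k) ≤ ((sphere k (d + d + 1 + t + 1) r).ncard : ℝ) ∧
        ((sphere k (d + d + 1 + t + 1) r).ncard : ℝ) ≤ C * r ^ (((d + d + 1 + t + 1 : ℕ) : ℝ) - k) := by
  have hkd := le_of_upper hk hd1 hU
  obtain ⟨c, hc, X₁, hlow⟩ := lower_ge hk hd1 hU hloc
  obtain ⟨C, hC, hup⟩ := upper_ge hk hd1 hU (d + 1 + t + 1)
  have eD : d + (d + 1 + t + 1) = d + d + 1 + t + 1 := by omega
  rw [eD] at hup
  set D := d + d + 1 + t + 1 with hD
  have hkD : k ≤ D := by omega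
  have hdR : (1 : ℝ) ≤ d := by exact_mod_cast hd1
  refine ⟨min (c * (1 / (16 * d)) ^ (D - k)) (2 ^ D * (C * (2 : ℝ) ^ (D - k))),
    2 ^ D * (C * (2 : ℝ) ^ (D - k)), (16 * d * (X₁ + 1 : ℕ) : ℝ), by positivity, min_le_right _ _, ?_⟩
  intro r hr hr0 n hrn
  have er : r ^ ((D : ℝ) - k) = r ^ (D - k) := by
    rw [← Nat.cast_sub hkD, Real.rpow_natCast]
  rw [er]
  have hr1 : (1 : ℝ) ≤ r := by
    refine le_trans ?_ hr0
    push_cast
    have h1 : (0 : ℝ) ≤ X₁ := Nat.cast_nonneg _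
    nlinarith
  constructor
  · refine (mul_le_mul_of_nonneg_right (min_le_left _ _) (by positivity)).trans ?_
    obtain ⟨X, hX1, hX2⟩ := exists_scale (n := n) hk (show 1 ≤ 8 * d by omega)
    have hrX : r ≤ 16 * d * X ∨ X = 0 := by
      rcases Nat.eq_zero_or_pos X with h0 | hpos
      · right; exact h0
      · left
        have h1 : n ≤ (16 * d * X) ^ k := by
          calc n ≤ 8 * d * (X + 1) ^ k := hX2.le
            _ ≤ (8 * d) ^ k * (2 * X) ^ k := by
                apply Nat.mul_le_mul (Nat.le_self_pow (by omega) _)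
                exact Nat.pow_le_pow_left (by omega) k
            _ = (16 * d * X) ^ k := by rw [← mul_pow]; congr 1; ring
        have h2 : r ^ k ≤ (16 * d * X) ^ k := by
          rw [hrn]
          exact_mod_cast h1
        exact le_of_pow_le_pow_left₀ (by omega) (by positivity) h2
    have hXX : X₁ + 1 ≤ X := by
      rcases hrX with h | h
      · have h1 : (16 * d * (X₁ + 1 : ℕ) : ℝ) ≤ 16 * d * X := hr0.trans h
        have h2 : ((X₁ + 1 : ℕ) : ℝ) ≤ X := le_of_mul_le_mul_left h1 (by positivity)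
        exact_mod_cast h2
      · exfalso
        rw [h] at hX2
        simp only [zero_add, one_pow, mul_one] at hX2
        have h1 : (n : ℝ) < 8 * d := by exact_mod_cast hX2
        have h2 : r ≤ r ^ k := le_self_pow₀ hr1 (by omega)
        rw [hrn] at h2
        have h3 : (16 * d : ℝ) ≤ 16 * d * (X₁ + 1 : ℕ) := by
          push_cast
          have h4 : (0 : ℝ) ≤ X₁ := Nat.cast_nonneg _
          nlinarith
        linarith
    have hrX' : r ≤ 16 * d * X := by
      rcases hrX with h | h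
      · exact h
      · omega
    have h1 := hlow X (by omega) n hX1 hX2
    have h2 : ((Rep k D n).ncard : ℝ) ≤ ((sphere k D r).ncard : ℝ) := by
      exact_mod_cast Rep_le_sphere (by omega) hr hrn
    refine le_trans ?_ (h1.trans h2)
    have h3 : (1 / (16 * (d : ℝ))) ^ (D - k) * r ^ (D - k) ≤ (X : ℝ) ^ (D - k) := by
      rw [← mul_pow]
      apply pow_le_pow_left₀ (by positivity)
      rw [one_div, inv_mul_le_iff₀ (by positivity)]
      exact hrX'
    calc c * (1 / (16 * (d : ℝ))) ^ (D - k) * r ^ (D - k)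
        = c * ((1 / (16 * (d : ℝ))) ^ (D - k) * r ^ (D - k)) := by ring
      _ ≤ c * (X : ℝ) ^ (D - k) := mul_le_mul_of_nonneg_left h3 hc.le
  · have h1 := sphere_le_Rep (D := D) hk hr hrn
    set X := ⌊r⌋₊ + 1 with hX
    have hrX : r < X := by
      rw [hX]
      push_cast
      exact Nat.lt_floor_add_one r
    have hX2 : (X : ℝ) ≤ 2 * r := by
      rw [hX]
      push_cast
      have := Nat.floor_le hr.le
      linarith
    have hnX : n < X ^ k := by
      have h2 : r ^ k < (X : ℝ) ^ k := pow_lt_pow_left₀ hrX hr.le (by omega)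
      rw [hrn] at h2
      exact_mod_cast h2
    have h2 := hup X n (by omega) hnX
    calc ((sphere k D r).ncard : ℝ) ≤ 2 ^ D * ((Rep k D n).ncard : ℝ) := h1
      _ ≤ 2 ^ D * (C * (X : ℝ) ^ (D - k)) := by gcongr
      _ ≤ 2 ^ D * (C * (2 * r) ^ (D - k)) := by gcongr
      _ = 2 ^ D * (C * (2 : ℝ) ^ (D - k)) * r ^ (D - k) := by rw [mul_pow]; ring

end Pool.Agent.TH854.KS
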